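import Mathlib

/-!
# Gabow's conjecture for representable matroids follows from the statement `RG`

`RG r K`: let `F` be a function on the `r`-subsets of a set with `2 r` elements, with values in the
field `K`, such that `∑ a ∉ C, F (C ∪ {a}) = 0` for all `C` with `r - 1` elements. If `F S ≠ 0` for
one half `S` then there is a chain of exchanges from `S` to its complement along which `F` does not
vanish.
-/

set_option autoImplicit false

namespace Pool.Agent.H68Rg

open Finset

/-- The set of the elements `inl (σ j)`, `k ≤ j`, and `inr (σ' j)`, `j < k`. -/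
def chain {r : ℕ} (σ σ' : Equiv.Perm (Fin r)) (k : ℕ) : Finset (Fin r ⊕ Fin r) :=
  (univ.filter fun i => k ≤ (σ.symm i).val).disjSum (univ.filter fun j => (σ'.symm j).val < k)

/-- The statement `RG` for the field `K` and rank `r`. -/
def RG (r : ℕ) (K : Type*) [Field K] : Prop :=
  ∀ F : Finset (Fin r ⊕ Fin r) → K,
    (∀ C : Finset (Fin r ⊕ Fin r), C.card + 1 = r → ∑ a ∈ Cᶜ, F (insert a C) = 0) →
    F (univ.map ⟨Sum.inl, Sum.inl_injective⟩) ≠ 0 →
    ∃ σ σ' : Equiv.Perm (Fin r), ∀ k, k ≤ r → F (chain σ σ' k) ≠ 0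

variable {r : ℕ} {K : Type*} [Field K]

/-- The matrix with the columns `(E a, 0)`, `a ∈ A`, and `(0, E a)`, `a ∉ A`. -/
def mat (E : Fin r ⊕ Fin r → Fin r → K) (A : Finset (Fin r ⊕ Fin r)) :
    Matrix (Fin r ⊕ Fin r) (Fin r ⊕ Fin r) K :=
  Matrix.of fun x a => Sum.elim (fun i => if a ∈ A then E a i else 0)
    (fun i => if a ∈ A then 0 else E a i) x

/-- The nilpotent matrix `(x, y) ↦ (y, 0)`. -/
def nil (r : ℕ) (K : Type*) [Field K] : Matrix (Fin r ⊕ Fin r) (Fin r ⊕ Fin r) K :=
  Matrix.fromBlocks 0 1 0 0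

theorem trace_nil : (nil r K).trace = 0 := by
  simp [nil, Matrix.trace]

theorem sum_updateCol (N : Matrix (Fin r ⊕ Fin r) (Fin r ⊕ Fin r) K) :
    ∑ a, (N.updateCol a fun x => (nil r K * N) x a).det = 0 := by
  have h1 : ∀ a, (N.updateCol a fun x => (nil r K * N) x a).det =
      (N.adjugate * (nil r K * N)) a a := by
    intro a
    rw [← Matrix.cramer_apply, Matrix.cramer_eq_adjugate_mulVec]
    rfl
  rw [Finset.sum_congr rfl fun a _ => h1 a]
  change (N.adjugate * (nil r K * N)).trace = 0
  rw [Matrix.trace_mul_comm, Matrix.mul_assoc, Matrix.mul_adjugate, Matrix.mul_smul,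
    Matrix.trace_smul, Matrix.mul_one, trace_nil, smul_zero]

theorem nil_mul_mat (E : Fin r ⊕ Fin r → Fin r → K) (C : Finset (Fin r ⊕ Fin r))
    (a : Fin r ⊕ Fin r) (x : Fin r ⊕ Fin r) :
    (nil r K * mat E C) x a = Sum.elim (fun i => if a ∈ C then 0 else E a i) (fun _ => 0) x := by
  rcases x with i | i
  · simp [nil, mat, Matrix.mul_apply, Matrix.fromBlocks, Matrix.one_apply]
  · simp [nil, mat, Matrix.mul_apply, Matrix.fromBlocks]

theorem mat_insert (E : Fin r ⊕ Fin r → Fin r → K) (C : Finset (Fin r ⊕ Fin r))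
    (a : Fin r ⊕ Fin r) (ha : a ∉ C) :
    mat E (insert a C) = (mat E C).updateCol a fun x => (nil r K * mat E C) x a := by
  ext x c
  rw [Matrix.updateCol_apply, nil_mul_mat]
  rcases eq_or_ne c a with rfl | hca
  · rcases x with i | i <;> simp [mat, ha]
  · rcases x with i | i <;> simp [mat, hca]

theorem rel (E : Fin r ⊕ Fin r → Fin r → K) (C : Finset (Fin r ⊕ Fin r)) :
    ∑ a ∈ Cᶜ, (mat E (insert a C)).det = 0 := by
  rw [← sum_updateCol (mat E C), ← Finset.sum_compl_add_sum C]
  rw [Finset.sum_congr rfl fun a ha => by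
    rw [mat_insert E C a (by simpa using ha)]]
  rw [left_eq_add]
  refine Finset.sum_eq_zero fun a ha => ?_
  refine Matrix.det_eq_zero_of_column_eq_zero a fun x => ?_
  rw [Matrix.updateCol_self, nil_mul_mat]
  rcases x with i | i <;> simp [ha]

/-- If the determinant does not vanish, the vectors are independent. -/
theorem indep_of_det {E : Fin r ⊕ Fin r → Fin r → K} {A : Finset (Fin r ⊕ Fin r)}
    (h : (mat E A).det ≠ 0) :
    LinearIndepOn K E (A : Set (Fin r ⊕ Fin r)) ∧
      LinearIndepOn K E ((Aᶜ : Finset (Fin r ⊕ Fin r)) : Set (Fin r ⊕ Fin r)) := by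
  have h1 := Matrix.linearIndependent_cols_of_det_ne_zero h
  constructor
  · have h2 := h1.comp (fun a : (A : Set (Fin r ⊕ Fin r)) => (a : Fin r ⊕ Fin r))
      Subtype.val_injective
    let L : (Fin r → K) →ₗ[K] (Fin r ⊕ Fin r → K) :=
      { toFun := fun v => Sum.elim v 0
        map_add' := fun v w => by ext x; rcases x with i | i <;> simp
        map_smul' := fun c v => by ext x; rcases x with i | i <;> simp }
    refine LinearIndependent.of_comp L ?_
    have e : (L ∘ fun a : (A : Set (Fin r ⊕ Fin r)) => E a) =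
        (mat E A).col ∘ fun a : (A : Set (Fin r ⊕ Fin r)) => (a : Fin r ⊕ Fin r) := by
      funext a
      have ha : (a : Fin r ⊕ Fin r) ∈ A := a.2
      funext x
      rcases x with i | i <;> simp [L, mat, ha]
    rw [e]
    exact h2
  · have h2 := h1.comp (fun a : ((Aᶜ : Finset (Fin r ⊕ Fin r)) : Set (Fin r ⊕ Fin r)) =>
      (a : Fin r ⊕ Fin r)) Subtype.val_injective
    let L : (Fin r → K) →ₗ[K] (Fin r ⊕ Fin r → K) :=
      { toFun := fun v => Sum.elim 0 v
        map_add' := fun v w => by ext x; rcases x with i | i <;> simp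
        map_smul' := fun c v => by ext x; rcases x with i | i <;> simp }
    refine LinearIndependent.of_comp L ?_
    have e : (L ∘ fun a : ((Aᶜ : Finset (Fin r ⊕ Fin r)) : Set (Fin r ⊕ Fin r)) => E a) =
        (mat E A).col ∘ fun a : ((Aᶜ : Finset (Fin r ⊕ Fin r)) : Set (Fin r ⊕ Fin r)) =>
          (a : Fin r ⊕ Fin r) := by
      funext a
      have ha : (a : Fin r ⊕ Fin r) ∉ A := Finset.mem_compl.1 a.2
      funext x
      rcases x with i | i <;> simp [L, mat, ha]
    rw [e]
    exact h2

/-- The first value. -/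
theorem det_first {E : Fin r ⊕ Fin r → Fin r → K}
    (h1 : LinearIndependent K fun i : Fin r => E (Sum.inl i))
    (h2 : LinearIndependent K fun i : Fin r => E (Sum.inr i)) :
    (mat E (univ.map ⟨Sum.inl, Sum.inl_injective⟩)).det ≠ 0 := by
  have e : mat E (univ.map ⟨Sum.inl, Sum.inl_injective⟩) =
      Matrix.fromBlocks (Matrix.of fun i j => E (Sum.inl j) i) 0 0
        (Matrix.of fun i j => E (Sum.inr j) i) := by
    ext x y
    rcases x with i | i <;> rcases y with j | j <;> simp [mat]
  rw [e, Matrix.det_fromBlocks_zero₂₁]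
  refine mul_ne_zero ?_ ?_
  · have := Matrix.linearIndependent_cols_iff_isUnit.1
      (show LinearIndependent K (Matrix.of fun i j => E (Sum.inl j) i).col from h1)
    exact ((Matrix.isUnit_iff_isUnit_det _).1 this).ne_zero
  · have := Matrix.linearIndependent_cols_iff_isUnit.1
      (show LinearIndependent K (Matrix.of fun i j => E (Sum.inr j) i).col from h2)
    exact ((Matrix.isUnit_iff_isUnit_det _).1 this).ne_zero

theorem card_of_det {E : Fin r ⊕ Fin r → Fin r → K} {A : Finset (Fin r ⊕ Fin r)}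
    (h : (mat E A).det ≠ 0) : A.card = r ∧ Aᶜ.card = r := by
  obtain ⟨h1, h2⟩ := indep_of_det h
  have e1 : A.card ≤ r := by
    have := LinearIndependent.fintype_card_le_finrank (show LinearIndependent K
      (fun a : (A : Set (Fin r ⊕ Fin r)) => E a) from h1)
    simpa using this
  have e2 : Aᶜ.card ≤ r := by
    have := LinearIndependent.fintype_card_le_finrank (show LinearIndependent K
      (fun a : ((Aᶜ : Finset (Fin r ⊕ Fin r)) : Set (Fin r ⊕ Fin r)) => E a) from h2)
    rw [Module.finrank_fin_fun] at this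
    exact (Fintype.card_coe _).symm.le.trans this
  have e3 := Finset.card_add_card_compl A
  rw [Fintype.card_sum, Fintype.card_fin] at e3
  omega

/-- The block of `r` cyclically consecutive terms, starting with the term number `i`, of the
sequence `u 0, ..., u (r - 1), v 0, ..., v (r - 1)` of length `2 r` (numbered from `0`): the set of
all terms whose number `j` satisfies `(j - i) mod 2 r < r`. -/
def block {α : Type*} {r : ℕ} (u v : Fin r → α) (i : Fin (r + r)) : Set α :=
  {x | ∃ j : Fin (r + r), (j - i).val < r ∧ x = Fin.append u v j}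

theorem mem_chain {σ σ' : Equiv.Perm (Fin r)} {k : ℕ} (hk : k ≤ r) (j : Fin (r + r)) :
    Fin.append (Sum.inl ∘ σ) (Sum.inr ∘ σ') j ∈ chain σ σ' k ↔ k ≤ j.val ∧ j.val < k + r := by
  refine Fin.addCases (fun i => ?_) (fun i => ?_) j
  · rw [Fin.append_left, Function.comp_apply, chain, Finset.inl_mem_disjSum]
    simp only [mem_filter, mem_univ, true_and, Equiv.symm_apply_apply, Fin.val_castAdd]
    have := i.2
    omega
  · rw [Fin.append_right, Function.comp_apply, chain, Finset.inr_mem_disjSum]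
    simp only [mem_filter, mem_univ, true_and, Equiv.symm_apply_apply, Fin.val_natAdd]
    have := i.2
    omega

theorem sub_lt_iff (i j : Fin (r + r)) (hi : i.val ≤ r) :
    (j - i).val < r ↔ i.val ≤ j.val ∧ j.val < i.val + r := by
  have h1 := i.2
  have h2 := j.2
  rw [Fin.sub_def]
  change (r + r - i.val + j.val) % (r + r) < r ↔ _
  rcases Nat.lt_or_ge j.val i.val with h | h
  · rw [Nat.mod_eq_of_lt (by omega)]
    omega
  · have e : r + r - i.val + j.val = (r + r) + (j.val - i.val) := by omega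
    rw [e, Nat.add_mod_left, Nat.mod_eq_of_lt (by omega)]
    omega

theorem sub_lt_iff' (i j : Fin (r + r)) (hi : r ≤ i.val) :
    (j - i).val < r ↔ ¬ (i.val - r ≤ j.val ∧ j.val < i.val - r + r) := by
  have h1 := i.2
  have h2 := j.2
  rw [Fin.sub_def]
  change (r + r - i.val + j.val) % (r + r) < r ↔ _
  rcases Nat.lt_or_ge j.val i.val with h | h
  · rw [Nat.mod_eq_of_lt (by omega)]
    omega
  · have e : r + r - i.val + j.val = (r + r) + (j.val - i.val) := by omega
    rw [e, Nat.add_mod_left, Nat.mod_eq_of_lt (by omega)]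
    omega

theorem append_surj (σ σ' : Equiv.Perm (Fin r)) (a : Fin r ⊕ Fin r) :
    ∃ j : Fin (r + r), Fin.append (Sum.inl ∘ σ) (Sum.inr ∘ σ') j = a := by
  rcases a with i | i
  · exact ⟨Fin.castAdd r (σ.symm i), by simp⟩
  · exact ⟨Fin.natAdd r (σ'.symm i), by rw [Fin.append_right]; simp⟩

theorem append_elim {α : Type*} (b b' : Fin r → α) (σ σ' : Equiv.Perm (Fin r)) (j : Fin (r + r)) :
    Fin.append (b ∘ σ) (b' ∘ σ') j =
      Sum.elim b b' (Fin.append (Sum.inl ∘ σ) (Sum.inr ∘ σ') j) := by
  refine Fin.addCases (fun i => ?_) (fun i => ?_) j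
  · simp
  · rw [Fin.append_right, Fin.append_right]
    simp

theorem block_left {α : Type*} (b b' : Fin r → α) (σ σ' : Equiv.Perm (Fin r)) (i : Fin (r + r))
    (hi : i.val ≤ r) : block (b ∘ σ) (b' ∘ σ') i =
      Sum.elim b b' '' (chain σ σ' i.val : Set (Fin r ⊕ Fin r)) := by
  ext x
  constructor
  · rintro ⟨j, hj, rfl⟩
    exact ⟨_, (mem_chain hi j).2 ((sub_lt_iff i j hi).1 hj), (append_elim b b' σ σ' j).symm⟩
  · rintro ⟨a, ha, rfl⟩
    obtain ⟨j, rfl⟩ := append_surj σ σ' a
    exact ⟨j, (sub_lt_iff i j hi).2 ((mem_chain hi j).1 ha), (append_elim b b' σ σ' j).symm⟩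

theorem block_right {α : Type*} (b b' : Fin r → α) (σ σ' : Equiv.Perm (Fin r)) (i : Fin (r + r))
    (hi : r ≤ i.val) : block (b ∘ σ) (b' ∘ σ') i =
      Sum.elim b b' '' ((chain σ σ' (i.val - r))ᶜ : Finset (Fin r ⊕ Fin r)) := by
  have h1 := i.2
  have hk : i.val - r ≤ r := by omega
  ext x
  constructor
  · rintro ⟨j, hj, rfl⟩
    refine ⟨_, ?_, (append_elim b b' σ σ' j).symm⟩
    rw [mem_coe, mem_compl, mem_chain hk]
    exact (sub_lt_iff' i j hi).1 hj
  · rintro ⟨a, ha, rfl⟩
    obtain ⟨j, rfl⟩ := append_surj σ σ' a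
    rw [mem_coe, mem_compl, mem_chain hk] at ha
    exact ⟨j, (sub_lt_iff' i j hi).2 ha, (append_elim b b' σ σ' j).symm⟩

/-- **Gabow's conjecture for matroids which are represented over `K` follows from `RG`.** -/
theorem gabow_of_RG {α V : Type*} [AddCommGroup V] [Module K V] (hRG : ∀ r, RG r K)
    (M : Matroid α) (φ : α → V) (hφ : ∀ X ⊆ M.E, M.Indep X ↔ LinearIndepOn K φ X) {r : ℕ}
    (b b' : Fin r → α) (hb : Function.Injective b) (hb' : Function.Injective b')
    (hB : M.IsBase (Set.range b)) (hB' : M.IsBase (Set.range b')) :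
    ∃ σ σ' : Equiv.Perm (Fin r), ∀ i : Fin (r + r), M.IsBase (block (b ∘ σ) (b' ∘ σ') i) := by
  set g : Fin r ⊕ Fin r → α := Sum.elim b b' with hg
  have hgE : ∀ a, g a ∈ M.E := by
    rintro (i | i)
    · exact hB.subset_ground ⟨i, rfl⟩
    · exact hB'.subset_ground ⟨i, rfl⟩
  have l1 : LinearIndependent K (φ ∘ b) :=
    (linearIndepOn_range_iff hb φ).1 ((hφ _ hB.subset_ground).1 hB.indep)
  have l2 : LinearIndependent K (φ ∘ b') :=
    (linearIndepOn_range_iff hb' φ).1 ((hφ _ hB'.subset_ground).1 hB'.indep)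
  have hsp : ∀ a, φ (g a) ∈ Submodule.span K (Set.range (φ ∘ b)) := by
    intro a
    by_cases ha : g a ∈ Set.range b
    · obtain ⟨i, hi⟩ := ha
      rw [← hi]
      exact Submodule.subset_span ⟨i, rfl⟩
    · by_contra hc
      have h3 : ¬ M.Indep (insert (g a) (Set.range b)) := by
        intro h4
        have h5 := hB.eq_of_subset_indep h4 (Set.subset_insert _ _)
        exact ha (h5 ▸ Set.mem_insert _ _)
      apply h3
      rw [hφ _ (Set.insert_subset (hgE a) hB.subset_ground)]
      have h4 := (hφ _ hB.subset_ground).1 hB.indep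
      refine h4.insert ?_
      rwa [← Set.range_comp]
  let β := Module.Basis.span l1
  let E : Fin r ⊕ Fin r → Fin r → K := fun a => β.equivFun ⟨φ (g a), hsp a⟩
  have key : ∀ A : Set (Fin r ⊕ Fin r), LinearIndepOn K E A → LinearIndepOn K (φ ∘ g) A := by
    intro A hA
    have h3 : LinearIndepOn K (fun a => (⟨φ (g a), hsp a⟩ :
        Submodule.span K (Set.range (φ ∘ b)))) A :=
      LinearIndependent.of_comp β.equivFun.toLinearMap hA
    exact LinearIndependent.map' h3 (Submodule.subtype _) (Submodule.ker_subtype _)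
  have base : ∀ A : Finset (Fin r ⊕ Fin r), A.card = r → LinearIndepOn K E (A : Set _) →
      M.IsBase (g '' (A : Set (Fin r ⊕ Fin r))) := by
    intro A hA hE
    have h3 := key _ hE
    have hinj : Set.InjOn (φ ∘ g) (A : Set (Fin r ⊕ Fin r)) := h3.injOn
    have hinj' : Set.InjOn g (A : Set (Fin r ⊕ Fin r)) := hinj.of_comp
    have h4 : M.Indep (g '' (A : Set (Fin r ⊕ Fin r))) := by
      rw [hφ _ (by rintro _ ⟨a, _, rfl⟩; exact hgE a)]
      exact h3.image_of_comp g φ
    obtain ⟨D, hD, hAD⟩ := h4.exists_isBase_superset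
    have h5 : D.ncard = r := by
      rw [hD.ncard_eq_ncard_of_isBase hB, ← Set.image_univ, hb.injOn.ncard_image, Set.ncard_univ,
        Nat.card_eq_fintype_card, Fintype.card_fin]
    have h6 : (g '' (A : Set (Fin r ⊕ Fin r))).ncard = r := by
      rw [hinj'.ncard_image, Set.ncard_coe_finset, hA]
    have h7 : D.Finite := by
      rw [← Set.encard_lt_top_iff, hD.encard_eq_encard_of_isBase hB, Set.encard_lt_top_iff]
      exact Set.finite_range b
    have h8 := Set.eq_of_subset_of_ncard_le hAD (by rw [h5, h6]) h7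
    rw [h8]
    exact hD
  have h1 : LinearIndependent K fun i : Fin r => E (Sum.inl i) := by
    have h3 : LinearIndependent K (fun i : Fin r => (⟨φ (g (Sum.inl i)), hsp _⟩ :
        Submodule.span K (Set.range (φ ∘ b)))) :=
      LinearIndependent.of_comp (Submodule.subtype _) l1
    exact h3.map' β.equivFun.toLinearMap β.equivFun.ker
  have h2 : LinearIndependent K fun i : Fin r => E (Sum.inr i) := by
    have h3 : LinearIndependent K (fun i : Fin r => (⟨φ (g (Sum.inr i)), hsp _⟩ :
        Submodule.span K (Set.range (φ ∘ b)))) :=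
      LinearIndependent.of_comp (Submodule.subtype _) l2
    exact h3.map' β.equivFun.toLinearMap β.equivFun.ker
  obtain ⟨σ, σ', hσ⟩ := hRG r (fun A => (mat E A).det) (fun C _ => rel E C) (det_first h1 h2)
  refine ⟨σ, σ', fun i => ?_⟩
  rcases le_total i.val r with hi | hi
  · rw [block_left b b' σ σ' i hi]
    have h3 := hσ i.val hi
    exact base _ (card_of_det h3).1 (indep_of_det h3).1
  · rw [block_right b b' σ σ' i hi]
    have h3 := hσ (i.val - r) (by have := i.2; omega)
    exact base _ (card_of_det h3).2 (indep_of_det h3).2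

end Pool.Agent.H68Rg
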