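import Pool.Agent.H68Rg.OfRG
import Pool.Agent.H11SW.Matroid

/-!
# From harmonic functions to matroids: paths with prescribed levels
-/

set_option autoImplicit false

namespace Pool.Agent.H68Rg

open Finset
open scoped Matroid

variable {r : ℕ} {K : Type*} [Field K]

/-- Complementation changes the determinant by the sign `(-1) ^ r`. -/
theorem det_compl (E : Fin r ⊕ Fin r → Fin r → K) (A : Finset (Fin r ⊕ Fin r)) :
    (mat E Aᶜ).det = (-1) ^ r * (mat E A).det := by
  have e1 : mat E Aᶜ = (Matrix.fromBlocks 0 1 1 0 : Matrix (Fin r ⊕ Fin r) (Fin r ⊕ Fin r) K) *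
      mat E A := by
    ext x a
    by_cases ha : a ∈ A
    · rcases x with i | i <;>
        simp [mat, Matrix.mul_apply, Matrix.fromBlocks, Matrix.one_apply, ha]
    · rcases x with i | i <;>
        simp [mat, Matrix.mul_apply, Matrix.fromBlocks, Matrix.one_apply, ha]
  have e2 : (Matrix.fromBlocks 0 1 1 0 : Matrix (Fin r ⊕ Fin r) (Fin r ⊕ Fin r) K) =
      Matrix.fromBlocks 1 1 0 1 * Matrix.fromBlocks 1 0 (-1) 1 * Matrix.fromBlocks 1 1 0 1 *
        Matrix.fromBlocks (-1) 0 0 1 := by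
    simp [Matrix.fromBlocks_multiply]
  have e3 : (Matrix.fromBlocks 0 1 1 0 : Matrix (Fin r ⊕ Fin r) (Fin r ⊕ Fin r) K).det =
      (-1) ^ r := by
    rw [e2, Matrix.det_mul, Matrix.det_mul, Matrix.det_mul, Matrix.det_fromBlocks_zero₂₁,
      Matrix.det_fromBlocks_zero₁₂, Matrix.det_fromBlocks_zero₂₁]
    simp [Matrix.det_neg]
  rw [e1, Matrix.det_mul, e3]

/-- An exchange, `a` out and `b` in. -/
def Exch (A B : Finset (Fin r ⊕ Fin r)) : Prop :=
  ∃ a ∈ A, ∃ b ∉ A, B = insert b (A.erase a)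

/-- Paths of harmonic functions in rank `r`, every step of which fulfils the condition `c` on the
parts in the second half, from the first half to the second one. -/
def Paths (r : ℕ) (K : Type*) [Field K] (c : Finset (Fin r) → Finset (Fin r) → Prop) : Prop :=
  ∀ F : Finset (Fin r ⊕ Fin r) → K,
    (∀ C : Finset (Fin r ⊕ Fin r), C.card + 1 = r → ∑ a ∈ Cᶜ, F (insert a C) = 0) →
    (∀ A : Finset (Fin r ⊕ Fin r), A.card = r → F Aᶜ = (-1) ^ r * F A) →
    F (univ.map ⟨Sum.inl, Sum.inl_injective⟩) ≠ 0 →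
    Relation.ReflTransGen (fun A B => Exch A B ∧ F B ≠ 0 ∧ c A.toRight B.toRight)
      (univ.map ⟨Sum.inl, Sum.inl_injective⟩) (univ.map ⟨Sum.inr, Sum.inr_injective⟩)

/-- **Transfer to matroids.** The condition `c` on a step from `P` to `Q` is a condition on the sets
`P.1 ∩ (B' \ B)` and `Q.1 ∩ (B' \ B)`. -/
theorem monotone_of_paths {α V : Type*} [AddCommGroup V] [Module K V]
    (M : Matroid α) (φ : α → V) (hφ : ∀ X ⊆ M.E, M.Indep X ↔ LinearIndepOn K φ X)
    {B B' : Set α} (hB : M.IsBase B) (hB' : M.IsBase B') (hfin : B.Finite)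
    (c : Set α → Set α → Prop)
    (hpath : ∀ b' : Fin (B \ B').ncard → α, Function.Injective b' → Set.range b' = B' \ B →
      Paths (B \ B').ncard K fun s t => c (b' '' (s : Set (Fin (B \ B').ncard)))
        (b' '' (t : Set (Fin (B \ B').ncard)))) :
    Relation.ReflTransGen
      (fun P Q => H11SW.SymExchange M P Q ∧ B ∩ B' ⊆ Q.1 ∧
        c (P.1 ∩ (B' \ B)) (Q.1 ∩ (B' \ B))) (B, B') (B', B) := by
  classical
  set n := (B \ B').ncard with hn
  set C := B ∩ B' with hC
  have hfin' : B'.Finite := by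
    rw [← Set.encard_lt_top_iff, hB'.encard_eq_encard_of_isBase hB, Set.encard_lt_top_iff]
    exact hfin
  have hn' : (B' \ B).ncard = n := by
    have h1 := Set.ncard_inter_add_ncard_sdiff_eq_ncard B B' hfin
    have h2 := Set.ncard_inter_add_ncard_sdiff_eq_ncard B' B hfin'
    rw [Set.inter_comm] at h2
    have h3 := hB'.ncard_eq_ncard_of_isBase hB
    omega
  obtain ⟨b, hb, hbr⟩ : ∃ b : Fin n → α, Function.Injective b ∧ Set.range b = B \ B' := by
    have : Finite (B \ B' : Set α) := hfin.sdiff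
    let e : Fin n ≃ (B \ B' : Set α) :=
      (Finite.equivFinOfCardEq (Nat.card_coe_set_eq (B \ B'))).symm
    exact ⟨fun i => (e i : α), Subtype.val_injective.comp e.injective, by
      rw [show (fun i => (e i : α)) = Subtype.val ∘ e from rfl, Set.range_comp, e.range_eq_univ,
        Set.image_univ, Subtype.range_coe]⟩
  obtain ⟨b', hb', hbr'⟩ : ∃ b' : Fin n → α, Function.Injective b' ∧ Set.range b' = B' \ B := by
    have : Finite (B' \ B : Set α) := hfin'.sdiff
    let e : Fin n ≃ (B' \ B : Set α) :=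
      (Finite.equivFinOfCardEq ((Nat.card_coe_set_eq (B' \ B)).trans hn')).symm
    exact ⟨fun i => (e i : α), Subtype.val_injective.comp e.injective, by
      rw [show (fun i => (e i : α)) = Subtype.val ∘ e from rfl, Set.range_comp, e.range_eq_univ,
        Set.image_univ, Subtype.range_coe]⟩
  -- contraction of the common part
  have hCi : M.Indep C := hB.indep.subset Set.inter_subset_left
  have hCE : C ⊆ M.E := hCi.subset_ground
  have hφ' : ∀ X ⊆ (M ／ C).E, (M ／ C).Indep X ↔
      LinearIndepOn K ((Submodule.span K (φ '' C)).mkQ ∘ φ) X := by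
    intro X hX
    rw [Matroid.contract_ground] at hX
    have hd : Disjoint C X := (Set.disjoint_sdiff_right).mono_right hX
    rw [hCi.contract_indep_iff, LinearIndepOn.quotient_iff_union ((hφ C hCE).1 hCi) hd,
      Set.union_comm X C, hφ _ (Set.union_subset hCE (hX.trans Set.sdiff_subset))]
    exact and_iff_right hd.symm
  have hbase1 : (M ／ C).IsBase (Set.range b) := by
    rw [hbr, hCi.contract_isBase_iff]
    refine ⟨?_, ?_⟩
    · rwa [hC, Set.union_comm, Set.inter_union_sdiff]
    · rw [hC]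
      exact Set.disjoint_left.2 fun x hx hx' => hx.2 hx'.2
  have hbase2 : (M ／ C).IsBase (Set.range b') := by
    rw [hbr', hCi.contract_isBase_iff]
    refine ⟨?_, ?_⟩
    · rwa [hC, Set.union_comm, Set.inter_comm, Set.inter_union_sdiff]
    · rw [hC]
      exact Set.disjoint_left.2 fun x hx hx' => hx.2 hx'.1
  obtain ⟨E, hE, h1, h2⟩ := H11SW.exists_vectors (M ／ C) _ hφ' b b' hb hb' hbase1 hbase2
  set g : Fin n ⊕ Fin n → α := Sum.elim b b' with hg
  have hginj : Function.Injective g := by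
    refine Function.Injective.sumElim hb hb' ?_
    intro i j hij
    have h3 : b i ∈ B \ B' := hbr ▸ ⟨i, rfl⟩
    have h4 : b' j ∈ B' \ B := hbr' ▸ ⟨j, rfl⟩
    exact h3.2 (hij ▸ h4.1)
  have hgC : ∀ a, g a ∉ C := by
    rintro (i | i) h
    · have h3 : b i ∈ B \ B' := hbr ▸ ⟨i, rfl⟩
      exact h3.2 h.2
    · have h3 : b' i ∈ B' \ B := hbr' ▸ ⟨i, rfl⟩
      exact h3.2 h.1
  let F : Finset (Fin n ⊕ Fin n) → K := fun A => (mat E A).det
  have hbase : ∀ A, F A ≠ 0 → M.IsBase (g '' (A : Set (Fin n ⊕ Fin n)) ∪ C) ∧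
      M.IsBase (g '' ((Aᶜ : Finset (Fin n ⊕ Fin n)) : Set (Fin n ⊕ Fin n)) ∪ C) := by
    intro A hA
    obtain ⟨h3, h4⟩ := indep_of_det hA
    obtain ⟨h5, h6⟩ := card_of_det hA
    exact ⟨(hCi.contract_isBase_iff.1 (hE A h5 h3).1).1,
      (hCi.contract_isBase_iff.1 (hE Aᶜ h6 h4).1).1⟩
  -- the pair of bases of a set
  let P : Finset (Fin n ⊕ Fin n) → Set α × Set α := fun A =>
    (g '' (A : Set (Fin n ⊕ Fin n)) ∪ C,
      g '' ((Aᶜ : Finset (Fin n ⊕ Fin n)) : Set (Fin n ⊕ Fin n)) ∪ C)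
  have hlev : ∀ A, (P A).1 ∩ (B' \ B) = b' '' (A.toRight : Set (Fin n)) := by
    intro A
    ext x
    constructor
    · rintro ⟨h3 | h3, h4⟩
      · obtain ⟨a, ha, rfl⟩ := h3
        rcases a with i | i
        · exact absurd (show b i ∈ B from (hbr ▸ ⟨i, rfl⟩ : b i ∈ B \ B').1) h4.2
        · exact ⟨i, by simpa using ha, rfl⟩
      · exact absurd h3.1 h4.2
    · rintro ⟨i, hi, rfl⟩
      refine ⟨Or.inl ⟨Sum.inr i, by simpa using hi, rfl⟩, hbr' ▸ ⟨i, rfl⟩⟩
  have main : ∀ A, Relation.ReflTransGen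
      (fun A A' => Exch A A' ∧ F A' ≠ 0 ∧ c (b' '' (A.toRight : Set (Fin n)))
        (b' '' (A'.toRight : Set (Fin n))))
      (univ.map ⟨Sum.inl, Sum.inl_injective⟩) A →
      Relation.ReflTransGen
        (fun P Q => H11SW.SymExchange M P Q ∧ B ∩ B' ⊆ Q.1 ∧
          c (P.1 ∩ (B' \ B)) (Q.1 ∩ (B' \ B)))
        (P (univ.map ⟨Sum.inl, Sum.inl_injective⟩)) (P A) := by
    intro A hA
    induction hA with
    | refl => exact Relation.ReflTransGen.refl
    | @tail A A' _ h ih =>
      obtain ⟨⟨a, ha, d, hd, rfl⟩, hF', hc⟩ := h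
      refine ih.tail ⟨⟨⟨g a, Or.inl ⟨a, ha, rfl⟩, g d, Or.inl ⟨d, by simpa using hd, rfl⟩, ?_, ?_⟩,
        (hbase _ hF').1, (hbase _ hF').2⟩, Set.subset_union_right, ?_⟩
      · change g '' _ ∪ C = insert (g d) ((g '' _ ∪ C) \ {g a})
        rw [coe_insert, Set.image_insert_eq, coe_erase, Set.insert_union, Set.union_sdiff_distrib,
          Set.image_sdiff hginj, Set.image_singleton, Set.sdiff_singleton_eq_self (hgC a)]
      · have e : ((insert d (A.erase a))ᶜ : Finset (Fin n ⊕ Fin n)) = insert a (Aᶜ.erase d) := by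
          ext x
          simp only [mem_compl, mem_insert, mem_erase, not_or, not_and_or, not_not]
          constructor
          · rintro ⟨h3, h4 | h4⟩
            · exact Or.inl h4
            · exact Or.inr ⟨h3, h4⟩
          · rintro (h4 | ⟨h3, h4⟩)
            · subst h4
              exact ⟨fun h => hd (h ▸ ha), Or.inl rfl⟩
            · exact ⟨h3, Or.inr h4⟩
        change g '' _ ∪ C = insert (g a) ((g '' ((Aᶜ : Finset (Fin n ⊕ Fin n)) :
          Set (Fin n ⊕ Fin n)) ∪ C) \ {g d})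
        rw [e, coe_insert (a := a), Set.image_insert_eq, coe_erase, Set.insert_union,
          Set.union_sdiff_distrib, Set.image_sdiff hginj, Set.image_singleton,
          Set.sdiff_singleton_eq_self (hgC d)]
      · rw [hlev, hlev]
        exact hc
  have h3 := main _ (hpath b' hb' hbr' F (fun C _ => rel E C) (fun A _ => det_compl E A) (det_first h1 h2))
  have e1 : P (univ.map ⟨Sum.inl, Sum.inl_injective⟩) = (B, B') := by
    refine Prod.ext ?_ ?_
    · change g '' _ ∪ C = B
      have : g '' ((univ.map ⟨Sum.inl, Sum.inl_injective⟩ : Finset (Fin n ⊕ Fin n)) :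
          Set (Fin n ⊕ Fin n)) = B \ B' := by
        rw [← hbr]
        ext x
        simp [hg]
      rw [this, hC, Set.union_comm, Set.inter_union_sdiff]
    · change g '' _ ∪ C = B'
      have : g '' (((univ.map ⟨Sum.inl, Sum.inl_injective⟩)ᶜ : Finset (Fin n ⊕ Fin n)) :
          Set (Fin n ⊕ Fin n)) = B' \ B := by
        rw [← hbr']
        ext x
        simp [hg]
      rw [this, hC, Set.union_comm, Set.inter_comm, Set.inter_union_sdiff]
  have e2 : P (univ.map ⟨Sum.inr, Sum.inr_injective⟩) = (B', B) := by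
    refine Prod.ext ?_ ?_
    · change g '' _ ∪ C = B'
      have : g '' ((univ.map ⟨Sum.inr, Sum.inr_injective⟩ : Finset (Fin n ⊕ Fin n)) :
          Set (Fin n ⊕ Fin n)) = B' \ B := by
        rw [← hbr']
        ext x
        simp [hg]
      rw [this, hC, Set.union_comm, Set.inter_comm, Set.inter_union_sdiff]
    · change g '' _ ∪ C = B
      have : g '' (((univ.map ⟨Sum.inr, Sum.inr_injective⟩)ᶜ : Finset (Fin n ⊕ Fin n)) :
          Set (Fin n ⊕ Fin n)) = B \ B' := by
        rw [← hbr]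
        ext x
        simp [hg]
      rw [this, hC, Set.union_comm, Set.inter_union_sdiff]
  rw [e1, e2] at h3
  exact h3

end Pool.Agent.H68Rg
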