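import Pool.Agent.H68Rg.Mono

/-!
# The swap with steps of at most two elements
-/

set_option autoImplicit false

namespace Pool.Agent.H68Rg

open Finset

variable {r : ℕ} {K : Type*} [Field K]

theorem sum_superset (E : Fin r ⊕ Fin r → Fin r → K) (C : Finset (Fin r ⊕ Fin r)) :
    ∑ A with C ⊆ A, (mat E A).det = (mat E C).det := by
  classical
  let x : Fin r ⊕ Fin r → Fin r ⊕ Fin r → K := fun a => Sum.elim (E a) 0
  let y : Fin r ⊕ Fin r → Fin r ⊕ Fin r → K := fun a => if a ∈ C then 0 else Sum.elim 0 (E a)
  have h1 := (Matrix.detRowAlternating (n := Fin r ⊕ Fin r)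
    (R := K)).toMultilinearMap.map_add_univ x y
  have h2 : ∀ A : Finset (Fin r ⊕ Fin r), C ⊆ A →
      (Matrix.of (A.piecewise x y)).det = (mat E A).det := by
    intro A hA
    rw [← Matrix.det_transpose]
    congr 1
    ext i a
    rw [Matrix.transpose_apply, Matrix.of_apply]
    by_cases ha : a ∈ A
    · rw [Finset.piecewise_eq_of_mem _ _ _ ha]
      rcases i with i | i <;> simp [x, mat, ha]
    · rw [Finset.piecewise_eq_of_notMem _ _ _ ha]
      have haC : a ∉ C := fun h => ha (hA h)
      rcases i with i | i <;> simp [y, mat, ha, haC]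
  have h3 : ∀ A : Finset (Fin r ⊕ Fin r), ¬ C ⊆ A →
      (Matrix.of (A.piecewise x y)).det = 0 := by
    intro A hA
    obtain ⟨a, ha, haA⟩ := Finset.not_subset.1 hA
    refine Matrix.det_eq_zero_of_row_eq_zero a fun i => ?_
    rw [Matrix.of_apply, Finset.piecewise_eq_of_notMem _ _ _ haA]
    simp [y, ha]
  have h4 : (Matrix.of (x + y)).det = (mat E C).det := by
    have e : Matrix.of (x + y) = (mat E C).transpose * (Matrix.fromBlocks 1 0 1 1 :
        Matrix (Fin r ⊕ Fin r) (Fin r ⊕ Fin r) K) := by
      ext a i
      by_cases ha : a ∈ C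
      · rcases i with i | i <;>
          simp [x, y, mat, Matrix.mul_apply, Matrix.fromBlocks, Matrix.one_apply, ha]
      · rcases i with i | i <;>
          simp [x, y, mat, Matrix.mul_apply, Matrix.fromBlocks, Matrix.one_apply, ha]
    rw [e, Matrix.det_mul, Matrix.det_fromBlocks_zero₁₂, Matrix.det_transpose]
    simp
  rw [← h4]
  refine Eq.trans ?_ h1.symm
  rw [Finset.sum_filter]
  refine Finset.sum_congr rfl fun A _ => ?_
  split_ifs with hA
  · exact (h2 A hA).symm
  · exact (h3 A hA).symm

theorem sum_superset_zero (E : Fin r ⊕ Fin r → Fin r → K) (C : Finset (Fin r ⊕ Fin r))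
    (hC : C.card < r) : ∑ A with C ⊆ A, (mat E A).det = 0 := by
  rw [sum_superset]
  by_contra h
  have := (card_of_det h).1
  omega

/-- The determinant is nonzero if both sets are independent. -/
theorem det_of_indep {E : Fin r ⊕ Fin r → Fin r → K} {A : Finset (Fin r ⊕ Fin r)}
    (h1 : LinearIndepOn K E (A : Set (Fin r ⊕ Fin r)))
    (h2 : LinearIndepOn K E ((Aᶜ : Finset (Fin r ⊕ Fin r)) : Set (Fin r ⊕ Fin r))) :
    (mat E A).det ≠ 0 := by
  classical
  have h3 : LinearIndependent K (mat E A).col := by
    rw [Fintype.linearIndependent_iff]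
    intro c hc
    have e1 : ∑ a ∈ A, c a • E a = 0 := by
      funext i
      have := congrFun hc (Sum.inl i)
      simp only [Finset.sum_apply, Pi.smul_apply, Matrix.col_apply, mat, Matrix.of_apply,
        Sum.elim_inl, Pi.zero_apply, smul_eq_mul, mul_ite, mul_zero] at this
      rw [← Finset.sum_filter] at this
      rw [Finset.sum_apply, Pi.zero_apply]
      rw [← this]
      refine Finset.sum_congr ?_ fun a _ => rfl
      ext a
      simp
    have e2 : ∑ a ∈ Aᶜ, c a • E a = 0 := by
      funext i
      have := congrFun hc (Sum.inr i)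
      simp only [Finset.sum_apply, Pi.smul_apply, Matrix.col_apply, mat, Matrix.of_apply,
        Sum.elim_inr, Pi.zero_apply, smul_eq_mul, mul_ite, mul_zero] at this
      rw [Finset.sum_apply, Pi.zero_apply]
      rw [← this, ← Finset.sum_filter_not_add_sum_filter (s := univ) (p := fun a => a ∈ A)]
      rw [Finset.sum_congr (g := fun _ => (0 : K)) (s₁ := univ.filter fun a => a ∈ A) rfl
        (fun a ha => by simp [(Finset.mem_filter.1 ha).2])]
      simp only [Finset.sum_const_zero, add_zero]
      refine Finset.sum_congr ?_ fun a ha => ?_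
      · ext a
        simp
      · have : a ∉ A := by simpa using ha
        simp [this]
    intro a
    by_cases ha : a ∈ A
    · exact linearIndepOn_finset_iff.1 h1 c e1 a ha
    · exact linearIndepOn_finset_iff.1 h2 c e2 a (by simpa using ha)
  have := Matrix.linearIndependent_cols_iff_isUnit.1 h3
  exact ((Matrix.isUnit_iff_isUnit_det _).1 this).ne_zero

end Pool.Agent.H68Rg
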