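import Pool.Agent.H68Rg.TwoA

/-!
# The swap with steps of at most two elements: inclusion and exclusion
-/

set_option autoImplicit false

namespace Pool.Agent.H68Rg

open Finset

section IE

variable {ι K : Type*} [Fintype ι] [DecidableEq ι] [Field K]

/-- Inclusion and exclusion. -/
theorem sum_disjoint (G : Finset ι → K) (Z : Finset ι) :
    ∑ A with Disjoint Z A, G A = ∑ D ∈ Z.powerset, (-1) ^ D.card * ∑ A with D ⊆ A, G A := by
  classical
  have h1 : ∀ D ∈ Z.powerset, (-1 : K) ^ D.card * ∑ A with D ⊆ A, G A =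
      ∑ A : Finset ι, if D ⊆ A then (-1 : K) ^ D.card * G A else 0 := by
    intro D _
    rw [Finset.sum_filter, Finset.mul_sum]
    refine Finset.sum_congr rfl fun A _ => ?_
    split_ifs <;> simp
  rw [Finset.sum_congr rfl h1, Finset.sum_comm, Finset.sum_filter]
  refine Finset.sum_congr rfl fun A _ => ?_
  rw [← Finset.sum_filter]
  have h2 : Z.powerset.filter (fun D => D ⊆ A) = (Z ∩ A).powerset := by
    ext D
    rw [Finset.mem_filter, Finset.mem_powerset, Finset.mem_powerset, Finset.subset_inter_iff]
  rw [h2, ← Finset.sum_mul]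
  have h3 : ∑ D ∈ (Z ∩ A).powerset, (-1 : K) ^ D.card = if Z ∩ A = ∅ then 1 else 0 := by
    have := congrArg (Int.cast (R := K)) (Finset.sum_powerset_neg_one_pow_card (x := Z ∩ A))
    push_cast at this
    exact this
  rw [h3]
  simp [Finset.disjoint_iff_inter_eq_empty]

/-- All sums over the members of a closed family which contain a given small set vanish. -/
theorem sum_closed {r : ℕ} (F : Finset ι → K) (hF0 : ∀ A, F A ≠ 0 → A.card = r)
    (htot : ∀ C : Finset ι, C.card < r → ∑ A with C ⊆ A, F A = 0)
    (Y : Finset ι → Prop)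
    (hY : ∀ A A', F A ≠ 0 → F A' ≠ 0 → r ≤ (A ∩ A').card + 2 → Y A → Y A')
    (hstep : ∀ (C : Finset ι), C.card + 2 < r → ∀ A A', F A ≠ 0 → F A' ≠ 0 → C ⊆ A → C ⊆ A' →
      Y A → ¬ Y A' → (∀ B, F B ≠ 0 → C ⊆ B → Y B → (B ∩ A').card ≤ (A ∩ A').card) →
      ∃ Z : Finset ι, Disjoint C Z ∧ (∀ B, F B ≠ 0 → C ⊆ B → ¬ B ⊆ C ∪ Z) ∧
        (∀ B, F B ≠ 0 → C ⊆ B → ¬ Disjoint Z B)) :
    ∀ k, ∀ C : Finset ι, C.card + k = r → 0 < k →
      ∑ A with C ⊆ A, (open Classical in if Y A then F A else 0) = 0 := by
  classical
  intro k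
  induction k using Nat.strong_induction_on with
  | _ k ih =>
    intro C hCk hk
    by_cases hall : ∀ A A', F A ≠ 0 → F A' ≠ 0 → C ⊆ A → C ⊆ A' → Y A → Y A'
    · -- all members or none
      by_cases hex : ∃ A, F A ≠ 0 ∧ C ⊆ A ∧ Y A
      · obtain ⟨A, hA, hCA, hYA⟩ := hex
        refine Eq.trans (Finset.sum_congr rfl fun A' hA' => ?_) (htot C (by omega))
        split_ifs with h
        · rfl
        · by_contra h0
          exact h (hall A A' hA (fun h1 => h0 h1.symm) hCA (by simpa using hA') hYA)
      · refine Finset.sum_eq_zero fun A' hA' => ?_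
        split_ifs with h
        · by_contra h0
          exact hex ⟨A', h0, by simpa using hA', h⟩
        · rfl
    · push Not at hall
      obtain ⟨A₁, A', hA₁, hA', hCA₁, hCA', hYA₁, hYA'⟩ := hall
      -- the nearest member
      obtain ⟨A, hAm, hmax⟩ := Finset.exists_max_image
        (univ.filter fun B : Finset ι => F B ≠ 0 ∧ C ⊆ B ∧ Y B) (fun B => (B ∩ A').card)
        ⟨A₁, by simp [hA₁, hCA₁, hYA₁]⟩
      obtain ⟨hA, hCA, hYA⟩ : F A ≠ 0 ∧ C ⊆ A ∧ Y A := by simpa using hAm
      have hr : C.card + 2 < r := by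
        by_contra hcon
        refine hYA' (hY A A' hA hA' ?_ hYA)
        have := Finset.card_le_card (Finset.subset_inter hCA hCA')
        omega
      obtain ⟨Z, hCZ, hZ1, hZ2⟩ := hstep C hr A A' hA hA' hCA hCA' hYA hYA'
        fun B hB hCB hYB => hmax B (by simp [hB, hCB, hYB])
      -- inclusion and exclusion
      have h1 := sum_disjoint (fun B => if C ⊆ B ∧ Y B then F B else 0) Z
      have h2 : ∑ B with Disjoint Z B, (if C ⊆ B ∧ Y B then F B else 0) = 0 := by
        refine Finset.sum_eq_zero fun B hB => ?_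
        split_ifs with h
        · by_contra h0
          exact hZ2 B h0 h.1 (by simpa using hB)
        · rfl
      have h3 : ∀ D : Finset ι, ∑ B with D ⊆ B, (if C ⊆ B ∧ Y B then F B else 0) =
          ∑ B with C ∪ D ⊆ B, (if Y B then F B else 0) := by
        intro D
        rw [Finset.sum_filter, Finset.sum_filter]
        refine Finset.sum_congr rfl fun B _ => ?_
        by_cases hD : D ⊆ B <;> by_cases hC : C ⊆ B <;> by_cases hYB : Y B <;>
          simp [Finset.union_subset_iff, hD, hC, hYB]
      have h4 : ∀ D ∈ Z.powerset, D ≠ ∅ →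
          (-1 : K) ^ D.card * ∑ B with D ⊆ B, (if C ⊆ B ∧ Y B then F B else 0) = 0 := by
        intro D hD hD0
        rw [h3 D]
        have hDZ := Finset.mem_powerset.1 hD
        have hdis : Disjoint C D := hCZ.mono_right hDZ
        have hc : (C ∪ D).card = C.card + D.card := Finset.card_union_of_disjoint hdis
        have hD1 : 0 < D.card := Finset.card_pos.2 (Finset.nonempty_iff_ne_empty.2 hD0)
        rcases lt_or_ge (C ∪ D).card r with hlt | hge
        · rw [ih (r - (C ∪ D).card) (by omega) (C ∪ D) (by omega) (by omega), mul_zero]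
        · rw [Finset.sum_eq_zero, mul_zero]
          intro B hB
          have hB' : C ∪ D ⊆ B := by simpa using hB
          split_ifs with h
          · by_contra h0
            have hBc := hF0 B h0
            have hBe : C ∪ D = B := Finset.eq_of_subset_of_card_le hB' (by omega)
            exact hZ1 B h0 (Finset.subset_union_left.trans hB')
              (hBe ▸ Finset.union_subset_union_right hDZ)
          · rfl
      rw [h2] at h1
      rw [Finset.sum_eq_single_of_mem ∅ (Finset.empty_mem_powerset Z)
        fun D hD hD0 => h4 D hD hD0] at h1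
      rw [h3 ∅] at h1
      simpa using h1.symm

/-- The complement of a member belongs to the family. -/
theorem compl_mem {r : ℕ} (F : Finset ι → K) (hF0 : ∀ A, F A ≠ 0 → A.card = r)
    (hι : Fintype.card ι = r + r) (hr : 0 < r)
    (Y : Finset ι → Prop)
    (hsum : ∀ C : Finset ι, C.card < r →
      ∑ A with C ⊆ A, (open Classical in if Y A then F A else 0) = 0)
    (S : Finset ι) (hS : F S ≠ 0) (hYS : Y S) : Y Sᶜ := by
  classical
  have hSc := hF0 S hS
  have h1 := sum_disjoint (fun B => if Y B then F B else 0) S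
  have h5 : ∑ D ∈ S.powerset, (-1 : K) ^ D.card * ∑ B with D ⊆ B, (if Y B then F B else 0) =
      (-1) ^ S.card * ∑ B with S ⊆ B, (if Y B then F B else 0) := by
    refine Finset.sum_eq_single_of_mem S (Finset.mem_powerset_self S) fun D hD hDS => ?_
    have hDS' := Finset.mem_powerset.1 hD
    have : D.card < r := by
      rw [← hSc]
      exact Finset.card_lt_card (lt_of_le_of_ne hDS' hDS)
    rw [hsum D this, mul_zero]
  rw [h5] at h1
  have h2 : ∑ B with S ⊆ B, (if Y B then F B else 0) = F S := by
    rw [Finset.sum_eq_single_of_mem S (by simp)]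
    · simp [hYS]
    · intro B hB hBS
      split_ifs with h
      · by_contra h0
        exact hBS (Finset.eq_of_subset_of_card_le (by simpa using hB)
          (by rw [hF0 B h0, hSc])).symm
      · rfl
  rw [h2] at h1
  have h3 : ∑ B with Disjoint S B, (if Y B then F B else 0) ≠ 0 := by
    rw [h1]
    exact mul_ne_zero (pow_ne_zero _ (by simp)) hS
  obtain ⟨B, hB, hB0⟩ := Finset.exists_ne_zero_of_sum_ne_zero h3
  have hYB : Y B := by
    by_contra h
    simp [h] at hB0
  have hFB : F B ≠ 0 := by simpa [hYB] using hB0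
  have hBS : Disjoint S B := by simpa using hB
  have : B = Sᶜ := by
    refine Finset.eq_of_subset_of_card_le ?_ ?_
    · intro x hx
      rw [Finset.mem_compl]
      exact fun h => Finset.disjoint_left.1 hBS h hx
    · rw [Finset.card_compl, hι, hSc, hF0 B hFB]
      omega
  rwa [← this]

end IE

end Pool.Agent.H68Rg
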