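import Pool.Agent.H68Rg.TwoB

/-!
# The swap with steps of at most two elements: the step and the transfer to matroids
-/

set_option autoImplicit false

namespace Pool.Agent.H68Rg

open Finset
open scoped Matroid

variable {r : ℕ} {K : Type*} [Field K]

/-- An independent set with `r` elements spans. -/
theorem span_top {E : Fin r ⊕ Fin r → Fin r → K} {A : Finset (Fin r ⊕ Fin r)}
    (h : LinearIndepOn K E (A : Set (Fin r ⊕ Fin r))) (hA : A.card = r) :
    Submodule.span K (E '' (A : Set (Fin r ⊕ Fin r))) = ⊤ := by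
  have h1 : LinearIndependent K (fun a : (A : Set (Fin r ⊕ Fin r)) => E a) := h
  have h2 := h1.span_eq_top_of_card_eq_finrank' (by simp [hA])
  rw [← h2]
  congr 1
  ext x
  simp

/-- A spanning set with `r` elements is independent. -/
theorem indep_of_span {E : Fin r ⊕ Fin r → Fin r → K} {A : Finset (Fin r ⊕ Fin r)}
    (h : Submodule.span K (E '' (A : Set (Fin r ⊕ Fin r))) = ⊤) (hA : A.card = r) :
    LinearIndepOn K E (A : Set (Fin r ⊕ Fin r)) := by
  have : LinearIndependent K (fun a : (A : Set (Fin r ⊕ Fin r)) => E a) := by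
    refine linearIndependent_of_top_le_span_of_card_eq_finrank ?_ (by simp [hA])
    rw [← h]
    refine le_of_eq (congrArg _ ?_)
    ext x
    simp
  exact this

/-- A set with less than `r` elements does not span. -/
theorem not_span {E : Fin r ⊕ Fin r → Fin r → K} {A : Finset (Fin r ⊕ Fin r)}
    (hA : A.card < r) : Submodule.span K (E '' (A : Set (Fin r ⊕ Fin r))) ≠ ⊤ := by
  classical
  intro h
  have h1 : Module.finrank K (Submodule.span K (((A.image E : Finset (Fin r → K))) :
      Set (Fin r → K))) ≤ (A.image E).card := finrank_span_finset_le_card _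
  rw [Finset.coe_image, h, finrank_top, Module.finrank_fin_fun] at h1
  have := Finset.card_image_le (s := A) (f := E)
  omega

/-- The combinatorial step. -/
theorem step_two (E : Fin r ⊕ Fin r → Fin r → K) (Y : Finset (Fin r ⊕ Fin r) → Prop)
    (hY : ∀ A A', (mat E A).det ≠ 0 → (mat E A').det ≠ 0 → r ≤ (A ∩ A').card + 2 → Y A → Y A')
    (C : Finset (Fin r ⊕ Fin r)) (hC : C.card + 2 < r) (A A' : Finset (Fin r ⊕ Fin r))
    (hA : (mat E A).det ≠ 0) (hA' : (mat E A').det ≠ 0) (hCA : C ⊆ A) (hCA' : C ⊆ A')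
    (hYA : Y A) (hYA' : ¬ Y A')
    (hmax : ∀ B, (mat E B).det ≠ 0 → C ⊆ B → Y B → (B ∩ A').card ≤ (A ∩ A').card) :
    ∃ Z : Finset (Fin r ⊕ Fin r), Disjoint C Z ∧
      (∀ B, (mat E B).det ≠ 0 → C ⊆ B → ¬ B ⊆ C ∪ Z) ∧
      (∀ B, (mat E B).det ≠ 0 → C ⊆ B → ¬ Disjoint Z B) := by
  classical
  obtain ⟨iA, iAc⟩ := indep_of_det hA
  obtain ⟨iA', iAc'⟩ := indep_of_det hA'
  obtain ⟨cA, cAc⟩ := card_of_det hA
  obtain ⟨cA', cAc'⟩ := card_of_det hA'
  -- at least three elements
  have h3 : (A ∩ A').card + 3 ≤ r := by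
    by_contra hcon
    exact hYA' (hY A A' hA hA' (by omega) hYA)
  have hd : (A' \ A).Nonempty := by
    rw [← Finset.card_pos]
    have := Finset.card_sdiff_add_card_inter A' A
    rw [Finset.inter_comm] at this
    omega
  obtain ⟨d, hd⟩ := hd
  obtain ⟨hdA', hdA⟩ := Finset.mem_sdiff.1 hd
  -- exchange in the first matroid
  obtain ⟨a, haA, haA', ha⟩ : ∃ a ∈ A, a ∉ A' ∧
      LinearIndepOn K E ((insert d (A.erase a) : Finset (Fin r ⊕ Fin r)) :
        Set (Fin r ⊕ Fin r)) := by
    have hdm : E d ∈ Submodule.span K (E '' (A : Set (Fin r ⊕ Fin r))) := by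
      rw [span_top iA cA]
      trivial
    obtain ⟨c, hc⟩ := Submodule.mem_span_image_finset_iff_exists_fun' (R := K) |>.1 hdm
    have hex : ∃ a ∈ A, a ∉ A' ∧ c a ≠ 0 := by
      by_contra hcon
      push Not at hcon
      refine iA'.notMem_span (i := d) (by simpa using hdA') ?_
      rw [← hc]
      refine Submodule.sum_mem _ fun x hx => ?_
      by_cases hxA' : x ∈ A'
      · refine Submodule.smul_mem _ _ (Submodule.subset_span ⟨x, ⟨by simpa using hxA', ?_⟩, rfl⟩)
        exact fun h => hdA ((Set.mem_singleton_iff.1 h) ▸ hx)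
      · rw [hcon x hx hxA', zero_smul]
        exact Submodule.zero_mem _
    obtain ⟨a, haA, haA', hca⟩ := hex
    refine ⟨a, haA, haA', indep_of_span ?_ ?_⟩
    · have hda : E d ∈ Submodule.span K (E '' ((insert d (A.erase a) :
          Finset (Fin r ⊕ Fin r)) : Set (Fin r ⊕ Fin r))) :=
        Submodule.subset_span ⟨d, by simp, rfl⟩
      have hya : ∀ y ∈ A.erase a, E y ∈ Submodule.span K (E '' ((insert d (A.erase a) :
          Finset (Fin r ⊕ Fin r)) : Set (Fin r ⊕ Fin r))) := fun y hy =>
        Submodule.subset_span ⟨y, by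
          rw [Finset.mem_coe]
          exact Finset.mem_insert_of_mem hy, rfl⟩
      rw [eq_top_iff, ← span_top iA cA, Submodule.span_le]
      rintro _ ⟨x, hx, rfl⟩
      by_cases hxa : x = a
      · subst hxa
        rw [← Finset.add_sum_erase _ _ haA] at hc
        have h6 : E x = (c x)⁻¹ • (E d - ∑ y ∈ A.erase x, c y • E y) := by
          rw [← hc, add_sub_cancel_right, smul_smul, inv_mul_cancel₀ hca, one_smul]
        change E x ∈ _
        rw [h6]
        exact Submodule.smul_mem _ _ (Submodule.sub_mem _ hda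
          (Submodule.sum_mem _ fun y hy => Submodule.smul_mem _ _ (hya y hy)))
      · exact hya x (Finset.mem_erase.2 ⟨hxa, hx⟩)
    · rw [Finset.card_insert_of_notMem (by simp [hdA]), Finset.card_erase_of_mem haA, cA]
      omega
  -- exchange in the second matroid
  obtain ⟨b, hbA, hbA', hb⟩ : ∃ b ∈ A, b ∉ A' ∧
      LinearIndepOn K E ((insert b (Aᶜ.erase d) : Finset (Fin r ⊕ Fin r)) :
        Set (Fin r ⊕ Fin r)) := by
    by_contra hcon
    push Not at hcon
    have hspan : ∀ x ∈ A'ᶜ, E x ∈ Submodule.span K (E '' ((Aᶜ.erase d :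
        Finset (Fin r ⊕ Fin r)) : Set (Fin r ⊕ Fin r))) := by
      intro x hx
      have hx' : x ∉ A' := by simpa using hx
      by_cases hxA : x ∈ A
      · by_contra hns
        refine hcon x hxA hx' ?_
        rw [Finset.coe_insert]
        exact (iAc.mono (by intro y hy; simp at hy; simp [hy.1])).insert hns
      · refine Submodule.subset_span ⟨x, ?_, rfl⟩
        simp only [coe_erase, coe_compl, Set.mem_sdiff, Set.mem_compl_iff, mem_coe,
          Set.mem_singleton_iff]
        exact ⟨hxA, fun h => hx' (h ▸ hdA')⟩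
    have htop := span_top iAc' cAc'
    refine not_span (E := E) (A := Aᶜ.erase d) ?_ ?_
    · rw [Finset.card_erase_of_mem (by simpa using hdA)]
      have : 0 < r := by omega
      omega
    · rw [eq_top_iff, ← htop, Submodule.span_le]
      rintro _ ⟨x, hx, rfl⟩
      exact hspan x (by simpa using hx)
  -- the second element, different from `a`
  obtain ⟨c, hcA, hcA', hca, hcb⟩ : ∃ c ∈ A, c ∉ A' ∧ c ≠ a ∧ (b ≠ a → c = b) := by
    by_cases hba : b = a
    · have : 1 < (A \ A').card := by
        have := Finset.card_sdiff_add_card_inter A A'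
        omega
      obtain ⟨c, hc, hca⟩ := Finset.exists_mem_ne this a
      obtain ⟨hc1, hc2⟩ := Finset.mem_sdiff.1 hc
      exact ⟨c, hc1, hc2, hca, fun h => absurd hba h⟩
    · exact ⟨b, hbA, hbA', hba, fun _ => rfl⟩
  set G : Finset (Fin r ⊕ Fin r) := insert d ((A.erase a).erase c) with hG
  have hdG : d ∉ (A.erase a).erase c := by simp [hdA]
  have cG : G.card + 1 = r := by
    rw [hG, Finset.card_insert_of_notMem hdG, Finset.card_erase_of_mem (by simp [hca, hcA]),
      Finset.card_erase_of_mem haA, cA]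
    omega
  have iG : LinearIndepOn K E (G : Set (Fin r ⊕ Fin r)) := by
    refine ha.mono ?_
    rw [Finset.coe_subset, hG]
    exact Finset.insert_subset_insert _ (Finset.erase_subset _ _)
  have hbG : b ∉ G := by
    rw [hG, Finset.mem_insert, not_or]
    refine ⟨fun h => hdA (h ▸ hbA), ?_⟩
    by_cases hba : b = a
    · simp [hba]
    · simp [hcb hba]
  have sGc : Submodule.span K (E '' ((Gᶜ : Finset (Fin r ⊕ Fin r)) : Set (Fin r ⊕ Fin r))) = ⊤ := by
    have h4 : (insert b (Aᶜ.erase d)).card = r := by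
      rw [Finset.card_insert_of_notMem (by simp [hbA]), Finset.card_erase_of_mem (by simpa using hdA),
        cAc]
      omega
    have h5 := span_top hb h4
    rw [eq_top_iff, ← h5]
    refine Submodule.span_mono (Set.image_mono ?_)
    rw [Finset.coe_subset]
    intro x hx
    rw [Finset.mem_compl]
    rcases Finset.mem_insert.1 hx with rfl | hx
    · exact hbG
    · intro hxG
      rw [Finset.mem_erase, Finset.mem_compl] at hx
      rcases Finset.mem_insert.1 hxG with h | h
      · exact hx.1 h
      · exact hx.2 (Finset.mem_of_mem_erase (Finset.mem_of_mem_erase h))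
  have cGc : Gᶜ.card = r + 1 := by
    rw [Finset.card_compl, Fintype.card_sum, Fintype.card_fin]
    omega
  -- the relation on the complement
  obtain ⟨l, hl0, x₀, hx₀, hx₀l⟩ : ∃ l : Fin r ⊕ Fin r → K, ∑ x ∈ Gᶜ, l x • E x = 0 ∧
      ∃ x ∈ Gᶜ, l x ≠ 0 := by
    have : ¬ LinearIndepOn K E ((Gᶜ : Finset (Fin r ⊕ Fin r)) : Set (Fin r ⊕ Fin r)) := by
      intro h
      have h4 : Fintype.card ((Gᶜ : Finset (Fin r ⊕ Fin r)) : Set (Fin r ⊕ Fin r)) ≤
          Module.finrank K (Fin r → K) :=
        LinearIndependent.fintype_card_le_finrank (show LinearIndependent K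
          (fun a : ((Gᶜ : Finset (Fin r ⊕ Fin r)) : Set (Fin r ⊕ Fin r)) => E a) from h)
      rw [Module.finrank_fin_fun] at h4
      have h5 := (Fintype.card_coe Gᶜ).symm.le.trans h4
      omega
    rw [linearIndepOn_finset_iff] at this
    push Not at this
    exact this
  -- no extension to a common basis
  have hext : ∀ e ∈ Gᶜ, l e ≠ 0 → E e ∈ Submodule.span K (E '' (G : Set (Fin r ⊕ Fin r))) := by
    intro e he hle
    by_contra hns
    have heG : e ∉ G := by simpa using he
    have h4 : LinearIndepOn K E ((insert e G : Finset (Fin r ⊕ Fin r)) :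
        Set (Fin r ⊕ Fin r)) := by
      rw [Finset.coe_insert]
      exact iG.insert hns
    have h5 : Submodule.span K (E '' ((Gᶜ.erase e : Finset (Fin r ⊕ Fin r)) :
        Set (Fin r ⊕ Fin r))) = ⊤ := by
      rw [eq_top_iff, ← sGc, Submodule.span_le]
      rintro _ ⟨x, hx, rfl⟩
      by_cases hxe : x = e
      · subst hxe
        have h6 : E x = - ((l x)⁻¹ • ∑ y ∈ Gᶜ.erase x, l y • E y) := by
          rw [← Finset.add_sum_erase _ _ he] at hl0
          rw [eq_neg_iff_add_eq_zero]
          have := congrArg (fun z => (l x)⁻¹ • z) hl0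
          simpa [smul_add, smul_smul, inv_mul_cancel₀ hle] using this
        change E x ∈ _
        rw [h6]
        refine Submodule.neg_mem _ (Submodule.smul_mem _ _ (Submodule.sum_mem _ fun y hy => ?_))
        exact Submodule.smul_mem _ _ (Submodule.subset_span ⟨y, by simpa [and_comm] using hy, rfl⟩)
      · exact Submodule.subset_span ⟨x, by simpa [hxe] using hx, rfl⟩
    have h6 : LinearIndepOn K E (((insert e G)ᶜ : Finset (Fin r ⊕ Fin r)) :
        Set (Fin r ⊕ Fin r)) := by
      have e1 : (insert e G)ᶜ = Gᶜ.erase e := by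
        ext x
        simp
      rw [e1]
      refine indep_of_span h5 ?_
      rw [Finset.card_erase_of_mem he, cGc]
      rfl
    have hB := det_of_indep h4 h6
    have hCB : C ⊆ insert e G := by
      intro x hx
      rw [Finset.mem_insert, hG, Finset.mem_insert, Finset.mem_erase, Finset.mem_erase]
      exact Or.inr (Or.inr ⟨fun h => hcA' (h ▸ hCA' hx), fun h => haA' (h ▸ hCA' hx), hCA hx⟩)
    have hYB : Y (insert e G) := by
      refine hY A _ hA hB ?_ hYA
      have h7 : (A.erase a).erase c ⊆ A ∩ insert e G := by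
        intro x hx
        rw [Finset.mem_inter, Finset.mem_insert, hG, Finset.mem_insert]
        exact ⟨Finset.mem_of_mem_erase (Finset.mem_of_mem_erase hx), Or.inr (Or.inr hx)⟩
      have h8 := Finset.card_le_card h7
      rw [Finset.card_erase_of_mem (by simp [hca, hcA]), Finset.card_erase_of_mem haA, cA] at h8
      omega
    have h7 := hmax _ hB hCB hYB
    have h8 : insert d (A ∩ A') ⊆ insert e G ∩ A' := by
      intro x hx
      rw [Finset.mem_inter, Finset.mem_insert, hG, Finset.mem_insert, Finset.mem_erase,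
        Finset.mem_erase]
      rcases Finset.mem_insert.1 hx with rfl | hx
      · exact ⟨Or.inr (Or.inl rfl), hdA'⟩
      · obtain ⟨hxA, hxA'⟩ := Finset.mem_inter.1 hx
        exact ⟨Or.inr (Or.inr ⟨fun h => hcA' (h ▸ hxA'), fun h => haA' (h ▸ hxA'), hxA⟩), hxA'⟩
    have h9 := Finset.card_le_card h8
    rw [Finset.card_insert_of_notMem (by simp [hdA])] at h9
    omega
  have hCG : C ⊆ G := by
    intro x hx
    rw [hG, Finset.mem_insert, Finset.mem_erase, Finset.mem_erase]
    exact Or.inr ⟨fun h => hcA' (h ▸ hCA' hx), fun h => haA' (h ▸ hCA' hx), hCA hx⟩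
  refine ⟨Gᶜ.filter fun x => l x ≠ 0, ?_, ?_, ?_⟩
  · rw [Finset.disjoint_left]
    intro x hx hx'
    exact (Finset.mem_compl.1 (Finset.mem_filter.1 hx').1) (hCG hx)
  · intro B hB hCB hBZ
    obtain ⟨iB, -⟩ := indep_of_det hB
    have h4 := span_top iB (card_of_det hB).1
    refine not_span (E := E) (A := G) (by omega) ?_
    rw [eq_top_iff, ← h4, Submodule.span_le]
    rintro _ ⟨x, hx, rfl⟩
    rcases Finset.mem_union.1 (hBZ hx) with h | h
    · exact Submodule.subset_span ⟨x, hCG h, rfl⟩
    · obtain ⟨h5, h6⟩ := Finset.mem_filter.1 h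
      exact hext x h5 h6
  · intro B hB hCB hZB
    obtain ⟨-, iB⟩ := indep_of_det hB
    have h4 : LinearIndepOn K E ((Gᶜ.filter fun x => l x ≠ 0 : Finset (Fin r ⊕ Fin r)) :
        Set (Fin r ⊕ Fin r)) := by
      refine iB.mono ?_
      rw [Finset.coe_subset]
      intro x hx
      rw [Finset.mem_compl]
      exact fun h => Finset.disjoint_left.1 hZB hx h
    rw [linearIndepOn_finset_iff] at h4
    refine hx₀l (h4 l ?_ x₀ (Finset.mem_filter.2 ⟨hx₀, hx₀l⟩))
    rw [← hl0, Finset.sum_filter]
    refine Finset.sum_congr rfl fun x _ => ?_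
    split_ifs with h
    · rfl
    · rw [not_not] at h
      rw [h, zero_smul]

end Pool.Agent.H68Rg
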