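import Pool.Agent.H68Rg.TwoC

/-!
# The swap with steps of at most two elements: matroids
-/

set_option autoImplicit false

namespace Pool.Agent.H68Rg

open Finset
open scoped Matroid

variable {r : ℕ} {K : Type*} [Field K]

/-- The paths in the set of the common bases. -/
theorem path_two (E : Fin r ⊕ Fin r → Fin r → K) (S : Finset (Fin r ⊕ Fin r))
    (hS : (mat E S).det ≠ 0) :
    Relation.ReflTransGen (fun A B => (mat E A).det ≠ 0 ∧ (mat E B).det ≠ 0 ∧
      r ≤ (A ∩ B).card + 2) S Sᶜ := by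
  classical
  rcases Nat.eq_zero_or_pos r with rfl | hr
  · have : Sᶜ = S := by
      ext x
      rcases x with i | i <;> exact i.elim0
    rw [this]
  · refine compl_mem (fun A => (mat E A).det) (fun A hA => (card_of_det hA).1) (by simp) hr
      (fun A => Relation.ReflTransGen (fun A B => (mat E A).det ≠ 0 ∧ (mat E B).det ≠ 0 ∧
        r ≤ (A ∩ B).card + 2) S A) ?_ S hS Relation.ReflTransGen.refl
    intro C hC
    have hY : ∀ A A', (mat E A).det ≠ 0 → (mat E A').det ≠ 0 → r ≤ (A ∩ A').card + 2 →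
        Relation.ReflTransGen (fun A B => (mat E A).det ≠ 0 ∧ (mat E B).det ≠ 0 ∧
          r ≤ (A ∩ B).card + 2) S A →
        Relation.ReflTransGen (fun A B => (mat E A).det ≠ 0 ∧ (mat E B).det ≠ 0 ∧
          r ≤ (A ∩ B).card + 2) S A' := fun A A' h1 h2 h3 h4 => h4.tail ⟨h1, h2, h3⟩
    exact sum_closed (fun A => (mat E A).det) (fun A hA => (card_of_det hA).1)
      (sum_superset_zero E) _ hY (step_two E _ hY) (r - C.card) C (by omega) (by omega)

/-- The pair `Q` arises from the pair `P` by the exchange of a set `X` of at most two elements of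
its first set with a set `Y` of equally many elements of its second set, and both sets of `Q` are
bases of `M`. -/
def TwoExchange {α : Type*} (M : Matroid α) (P Q : Set α × Set α) : Prop :=
  (∃ X ⊆ P.1, ∃ Y ⊆ P.2, X.encard = Y.encard ∧ X.encard ≤ 2 ∧ Q.1 = (P.1 \ X) ∪ Y ∧
    Q.2 = (P.2 \ Y) ∪ X) ∧ M.IsBase Q.1 ∧ M.IsBase Q.2

/-- **The swap with steps of at most two elements, for all representable matroids.** -/
theorem two_swap {α V : Type*} [AddCommGroup V] [Module K V]
    (M : Matroid α) (φ : α → V) (hφ : ∀ X ⊆ M.E, M.Indep X ↔ LinearIndepOn K φ X)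
    {B B' : Set α} (hB : M.IsBase B) (hB' : M.IsBase B') (hfin : B.Finite) :
    Relation.ReflTransGen (TwoExchange M) (B, B') (B', B) := by
  classical
  set n := (B \ B').ncard with hn
  set C := B ∩ B' with hC
  have hfin' : B'.Finite := by
    rw [← Set.encard_lt_top_iff, hB'.encard_eq_encard_of_isBase hB, Set.encard_lt_top_iff]
    exact hfin
  have hn' : (B' \ B).ncard = n := by
    have h1 := Set.ncard_inter_add_ncard_sdiff_eq_ncard B B' hfin
    have h2 := Set.ncard_inter_add_ncard_sdiff_eq_ncard B' B hfin'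
    rw [Set.inter_comm] at h2
    have h3 := hB'.ncard_eq_ncard_of_isBase hB
    omega
  obtain ⟨b, hb, hbr⟩ : ∃ b : Fin n → α, Function.Injective b ∧ Set.range b = B \ B' := by
    have : Finite (B \ B' : Set α) := hfin.sdiff
    let e : Fin n ≃ (B \ B' : Set α) :=
      (Finite.equivFinOfCardEq (Nat.card_coe_set_eq (B \ B'))).symm
    exact ⟨fun i => (e i : α), Subtype.val_injective.comp e.injective, by
      rw [show (fun i => (e i : α)) = Subtype.val ∘ e from rfl, Set.range_comp, e.range_eq_univ,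
        Set.image_univ, Subtype.range_coe]⟩
  obtain ⟨b', hb', hbr'⟩ : ∃ b' : Fin n → α, Function.Injective b' ∧ Set.range b' = B' \ B := by
    have : Finite (B' \ B : Set α) := hfin'.sdiff
    let e : Fin n ≃ (B' \ B : Set α) :=
      (Finite.equivFinOfCardEq ((Nat.card_coe_set_eq (B' \ B)).trans hn')).symm
    exact ⟨fun i => (e i : α), Subtype.val_injective.comp e.injective, by
      rw [show (fun i => (e i : α)) = Subtype.val ∘ e from rfl, Set.range_comp, e.range_eq_univ,
        Set.image_univ, Subtype.range_coe]⟩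
  -- contraction of the common part
  have hCi : M.Indep C := hB.indep.subset Set.inter_subset_left
  have hCE : C ⊆ M.E := hCi.subset_ground
  have hφ' : ∀ X ⊆ (M ／ C).E, (M ／ C).Indep X ↔
      LinearIndepOn K ((Submodule.span K (φ '' C)).mkQ ∘ φ) X := by
    intro X hX
    rw [Matroid.contract_ground] at hX
    have hd : Disjoint C X := (Set.disjoint_sdiff_right).mono_right hX
    rw [hCi.contract_indep_iff, LinearIndepOn.quotient_iff_union ((hφ C hCE).1 hCi) hd,
      Set.union_comm X C, hφ _ (Set.union_subset hCE (hX.trans Set.sdiff_subset))]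
    exact and_iff_right hd.symm
  have hbase1 : (M ／ C).IsBase (Set.range b) := by
    rw [hbr, hCi.contract_isBase_iff]
    refine ⟨?_, ?_⟩
    · rwa [hC, Set.union_comm, Set.inter_union_sdiff]
    · rw [hC]
      exact Set.disjoint_left.2 fun x hx hx' => hx.2 hx'.2
  have hbase2 : (M ／ C).IsBase (Set.range b') := by
    rw [hbr', hCi.contract_isBase_iff]
    refine ⟨?_, ?_⟩
    · rwa [hC, Set.union_comm, Set.inter_comm, Set.inter_union_sdiff]
    · rw [hC]
      exact Set.disjoint_left.2 fun x hx hx' => hx.2 hx'.1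
  obtain ⟨E, hE, h1, h2⟩ := H11SW.exists_vectors (M ／ C) _ hφ' b b' hb hb' hbase1 hbase2
  set g : Fin n ⊕ Fin n → α := Sum.elim b b' with hg
  have hginj : Function.Injective g := by
    refine Function.Injective.sumElim hb hb' ?_
    intro i j hij
    have h3 : b i ∈ B \ B' := hbr ▸ ⟨i, rfl⟩
    have h4 : b' j ∈ B' \ B := hbr' ▸ ⟨j, rfl⟩
    exact h3.2 (hij ▸ h4.1)
  have hgC : ∀ a, g a ∉ C := by
    rintro (i | i) h
    · have h3 : b i ∈ B \ B' := hbr ▸ ⟨i, rfl⟩
      exact h3.2 h.2
    · have h3 : b' i ∈ B' \ B := hbr' ▸ ⟨i, rfl⟩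
      exact h3.2 h.1
  have hbase : ∀ A, (mat E A).det ≠ 0 → M.IsBase (g '' (A : Set (Fin n ⊕ Fin n)) ∪ C) ∧
      M.IsBase (g '' ((Aᶜ : Finset (Fin n ⊕ Fin n)) : Set (Fin n ⊕ Fin n)) ∪ C) := by
    intro A hA
    obtain ⟨h3, h4⟩ := indep_of_det hA
    obtain ⟨h5, h6⟩ := card_of_det hA
    exact ⟨(hCi.contract_isBase_iff.1 (hE A h5 h3).1).1,
      (hCi.contract_isBase_iff.1 (hE Aᶜ h6 h4).1).1⟩
  -- the pair of bases of a set
  let P : Finset (Fin n ⊕ Fin n) → Set α × Set α := fun A =>
    (g '' (A : Set (Fin n ⊕ Fin n)) ∪ C,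
      g '' ((Aᶜ : Finset (Fin n ⊕ Fin n)) : Set (Fin n ⊕ Fin n)) ∪ C)
  have hdisj : ∀ (A : Finset (Fin n ⊕ Fin n)), Disjoint C (g '' (A : Set (Fin n ⊕ Fin n))) := by
    intro A
    rw [Set.disjoint_left]
    rintro x hx ⟨a, _, rfl⟩
    exact hgC a hx
  have key : ∀ A A' : Finset (Fin n ⊕ Fin n),
      g '' (A' : Set (Fin n ⊕ Fin n)) ∪ C =
        ((g '' (A : Set (Fin n ⊕ Fin n)) ∪ C) \ (g '' ((A \ A' : Finset (Fin n ⊕ Fin n)) :
          Set (Fin n ⊕ Fin n)))) ∪ g '' ((A' \ A : Finset (Fin n ⊕ Fin n)) :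
          Set (Fin n ⊕ Fin n)) := by
    intro A A'
    ext x
    constructor
    · rintro (⟨a, ha, rfl⟩ | hx)
      · by_cases haA : a ∈ A
        · refine Or.inl ⟨Or.inl ⟨a, haA, rfl⟩, ?_⟩
          rintro ⟨a', ha', he⟩
          rw [hginj he] at ha'
          exact (Finset.mem_sdiff.1 ha').2 ha
        · exact Or.inr ⟨a, Finset.mem_coe.2 (Finset.mem_sdiff.2 ⟨ha, haA⟩), rfl⟩
      · exact Or.inl ⟨Or.inr hx, fun h => Set.disjoint_left.1 (hdisj _) hx h⟩
    · rintro (⟨⟨a, ha, rfl⟩ | hx, h⟩ | ⟨a, ha, rfl⟩)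
      · refine Or.inl ⟨a, ?_, rfl⟩
        by_contra haA'
        exact h ⟨a, Finset.mem_coe.2 (Finset.mem_sdiff.2 ⟨ha, haA'⟩), rfl⟩
      · exact Or.inr hx
      · exact Or.inl ⟨a, (Finset.mem_sdiff.1 ha).1, rfl⟩
  have main : ∀ A, Relation.ReflTransGen
      (fun A B => (mat E A).det ≠ 0 ∧ (mat E B).det ≠ 0 ∧ n ≤ (A ∩ B).card + 2)
      (univ.map ⟨Sum.inl, Sum.inl_injective⟩) A →
      Relation.ReflTransGen (TwoExchange M)
        (P (univ.map ⟨Sum.inl, Sum.inl_injective⟩)) (P A) := by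
    intro A hA
    induction hA with
    | refl => exact Relation.ReflTransGen.refl
    | @tail A A' _ h ih =>
      obtain ⟨hF, hF', hc⟩ := h
      have cA := (card_of_det hF).1
      have cA' := (card_of_det hF').1
      have c1 := Finset.card_sdiff_add_card_inter A A'
      have c2 := Finset.card_sdiff_add_card_inter A' A
      rw [Finset.inter_comm] at c2
      refine ih.tail ⟨⟨g '' ((A \ A' : Finset (Fin n ⊕ Fin n)) : Set (Fin n ⊕ Fin n)), ?_,
        g '' ((A' \ A : Finset (Fin n ⊕ Fin n)) : Set (Fin n ⊕ Fin n)), ?_, ?_, ?_, ?_, ?_⟩,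
        (hbase _ hF').1, (hbase _ hF').2⟩
      · rintro _ ⟨a, ha, rfl⟩
        exact Or.inl ⟨a, (Finset.mem_sdiff.1 ha).1, rfl⟩
      · rintro _ ⟨a, ha, rfl⟩
        exact Or.inl ⟨a, Finset.mem_coe.2 (Finset.mem_compl.2 (Finset.mem_sdiff.1 ha).2), rfl⟩
      · rw [hginj.encard_image, hginj.encard_image, Set.encard_coe_eq_coe_finsetCard,
          Set.encard_coe_eq_coe_finsetCard]
        congr 1
        omega
      · rw [hginj.encard_image, Set.encard_coe_eq_coe_finsetCard]
        have : (A \ A').card ≤ 2 := by omega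
        exact_mod_cast this
      · exact key A A'
      · have e1 : A' \ A = Aᶜ \ A'ᶜ := by
          ext x
          simp [and_comm]
        have e2 : A \ A' = A'ᶜ \ Aᶜ := by
          ext x
          simp [and_comm]
        rw [e1, e2]
        exact key Aᶜ A'ᶜ
  have h3 := main _ (path_two E _ (det_first h1 h2))
  have e0 : ((univ.map ⟨Sum.inl, Sum.inl_injective⟩ : Finset (Fin n ⊕ Fin n))ᶜ) =
      univ.map ⟨Sum.inr, Sum.inr_injective⟩ := by
    ext x
    rcases x with i | i <;> simp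
  have e1 : P (univ.map ⟨Sum.inl, Sum.inl_injective⟩) = (B, B') := by
    refine Prod.ext ?_ ?_
    · change g '' _ ∪ C = B
      have : g '' ((univ.map ⟨Sum.inl, Sum.inl_injective⟩ : Finset (Fin n ⊕ Fin n)) :
          Set (Fin n ⊕ Fin n)) = B \ B' := by
        rw [← hbr]
        ext x
        simp [hg]
      rw [this, hC, Set.union_comm, Set.inter_union_sdiff]
    · change g '' _ ∪ C = B'
      have : g '' (((univ.map ⟨Sum.inl, Sum.inl_injective⟩)ᶜ : Finset (Fin n ⊕ Fin n)) :
          Set (Fin n ⊕ Fin n)) = B' \ B := by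
        rw [← hbr']
        ext x
        simp [hg]
      rw [this, hC, Set.union_comm, Set.inter_comm, Set.inter_union_sdiff]
  have e2 : P (univ.map ⟨Sum.inr, Sum.inr_injective⟩) = (B', B) := by
    refine Prod.ext ?_ ?_
    · change g '' _ ∪ C = B'
      have : g '' ((univ.map ⟨Sum.inr, Sum.inr_injective⟩ : Finset (Fin n ⊕ Fin n)) :
          Set (Fin n ⊕ Fin n)) = B' \ B := by
        rw [← hbr']
        ext x
        simp [hg]
      rw [this, hC, Set.union_comm, Set.inter_comm, Set.inter_union_sdiff]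
    · change g '' _ ∪ C = B
      have : g '' (((univ.map ⟨Sum.inr, Sum.inr_injective⟩)ᶜ : Finset (Fin n ⊕ Fin n)) :
          Set (Fin n ⊕ Fin n)) = B \ B' := by
        rw [← hbr]
        ext x
        simp [hg]
      rw [this, hC, Set.union_comm, Set.inter_union_sdiff]
  rw [e0, e1, e2] at h3
  exact h3

end Pool.Agent.H68Rg
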