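import Pool.Agent.H68Rg.TwoD

/-!
# Monotone climb with steps of at most two elements
-/

set_option autoImplicit false

namespace Pool.Agent.H68Rg

open Finset
open scoped Matroid

section IE

variable {ι K : Type*} [Fintype ι] [DecidableEq ι] [Field K]

/-- All sums over the members of a family, closed above `C₀`, which contain a given small set
vanish. -/
theorem sum_closed_over {r : ℕ} (F : Finset ι → K) (hF0 : ∀ A, F A ≠ 0 → A.card = r)
    (htot : ∀ C : Finset ι, C.card < r → ∑ A with C ⊆ A, F A = 0)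
    (C₀ : Finset ι) (Y : Finset ι → Prop)
    (hY : ∀ A A', F A ≠ 0 → F A' ≠ 0 → C₀ ⊆ A → C₀ ⊆ A' → r ≤ (A ∩ A').card + 2 → Y A → Y A')
    (hstep : ∀ (C : Finset ι), C₀ ⊆ C → C.card + 2 < r → ∀ A A', F A ≠ 0 → F A' ≠ 0 → C ⊆ A → C ⊆ A' →
      Y A → ¬ Y A' → (∀ B, F B ≠ 0 → C ⊆ B → Y B → (B ∩ A').card ≤ (A ∩ A').card) →
      ∃ Z : Finset ι, Disjoint C Z ∧ (∀ B, F B ≠ 0 → C ⊆ B → ¬ B ⊆ C ∪ Z) ∧
        (∀ B, F B ≠ 0 → C ⊆ B → ¬ Disjoint Z B)) :
    ∀ k, ∀ C : Finset ι, C₀ ⊆ C → C.card + k = r → 0 < k →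
      ∑ A with C ⊆ A, (open Classical in if Y A then F A else 0) = 0 := by
  classical
  intro k
  induction k using Nat.strong_induction_on with
  | _ k ih =>
    intro C hC₀ hCk hk
    by_cases hall : ∀ A A', F A ≠ 0 → F A' ≠ 0 → C ⊆ A → C ⊆ A' → Y A → Y A'
    · -- all members or none
      by_cases hex : ∃ A, F A ≠ 0 ∧ C ⊆ A ∧ Y A
      · obtain ⟨A, hA, hCA, hYA⟩ := hex
        refine Eq.trans (Finset.sum_congr rfl fun A' hA' => ?_) (htot C (by omega))
        split_ifs with h
        · rfl
        · by_contra h0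
          exact h (hall A A' hA (fun h1 => h0 h1.symm) hCA (by simpa using hA') hYA)
      · refine Finset.sum_eq_zero fun A' hA' => ?_
        split_ifs with h
        · by_contra h0
          exact hex ⟨A', h0, by simpa using hA', h⟩
        · rfl
    · push Not at hall
      obtain ⟨A₁, A', hA₁, hA', hCA₁, hCA', hYA₁, hYA'⟩ := hall
      -- the nearest member
      obtain ⟨A, hAm, hmax⟩ := Finset.exists_max_image
        (univ.filter fun B : Finset ι => F B ≠ 0 ∧ C ⊆ B ∧ Y B) (fun B => (B ∩ A').card)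
        ⟨A₁, by simp [hA₁, hCA₁, hYA₁]⟩
      obtain ⟨hA, hCA, hYA⟩ : F A ≠ 0 ∧ C ⊆ A ∧ Y A := by simpa using hAm
      have hr : C.card + 2 < r := by
        by_contra hcon
        refine hYA' (hY A A' hA hA' (hC₀.trans hCA) (hC₀.trans hCA') ?_ hYA)
        have := Finset.card_le_card (Finset.subset_inter hCA hCA')
        omega
      obtain ⟨Z, hCZ, hZ1, hZ2⟩ := hstep C hC₀ hr A A' hA hA' hCA hCA' hYA hYA'
        fun B hB hCB hYB => hmax B (by simp [hB, hCB, hYB])
      -- inclusion and exclusion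
      have h1 := sum_disjoint (fun B => if C ⊆ B ∧ Y B then F B else 0) Z
      have h2 : ∑ B with Disjoint Z B, (if C ⊆ B ∧ Y B then F B else 0) = 0 := by
        refine Finset.sum_eq_zero fun B hB => ?_
        split_ifs with h
        · by_contra h0
          exact hZ2 B h0 h.1 (by simpa using hB)
        · rfl
      have h3 : ∀ D : Finset ι, ∑ B with D ⊆ B, (if C ⊆ B ∧ Y B then F B else 0) =
          ∑ B with C ∪ D ⊆ B, (if Y B then F B else 0) := by
        intro D
        rw [Finset.sum_filter, Finset.sum_filter]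
        refine Finset.sum_congr rfl fun B _ => ?_
        by_cases hD : D ⊆ B <;> by_cases hC : C ⊆ B <;> by_cases hYB : Y B <;>
          simp [Finset.union_subset_iff, hD, hC, hYB]
      have h4 : ∀ D ∈ Z.powerset, D ≠ ∅ →
          (-1 : K) ^ D.card * ∑ B with D ⊆ B, (if C ⊆ B ∧ Y B then F B else 0) = 0 := by
        intro D hD hD0
        rw [h3 D]
        have hDZ := Finset.mem_powerset.1 hD
        have hdis : Disjoint C D := hCZ.mono_right hDZ
        have hc : (C ∪ D).card = C.card + D.card := Finset.card_union_of_disjoint hdis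
        have hD1 : 0 < D.card := Finset.card_pos.2 (Finset.nonempty_iff_ne_empty.2 hD0)
        rcases lt_or_ge (C ∪ D).card r with hlt | hge
        · rw [ih (r - (C ∪ D).card) (by omega) (C ∪ D) (hC₀.trans Finset.subset_union_left) (by omega)
            (by omega), mul_zero]
        · rw [Finset.sum_eq_zero, mul_zero]
          intro B hB
          have hB' : C ∪ D ⊆ B := by simpa using hB
          split_ifs with h
          · by_contra h0
            have hBc := hF0 B h0
            have hBe : C ∪ D = B := Finset.eq_of_subset_of_card_le hB' (by omega)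
            exact hZ1 B h0 (Finset.subset_union_left.trans hB')
              (hBe ▸ Finset.union_subset_union_right hDZ)
          · rfl
      rw [h2] at h1
      rw [Finset.sum_eq_single_of_mem ∅ (Finset.empty_mem_powerset Z)
        fun D hD hD0 => h4 D hD hD0] at h1
      rw [h3 ∅] at h1
      simpa using h1.symm

end IE

variable {r : ℕ} {K : Type*} [Field K]

/-- The combinatorial step. -/
theorem step_two_over (E : Fin r ⊕ Fin r → Fin r → K) (C₀ : Finset (Fin r ⊕ Fin r))
    (Y : Finset (Fin r ⊕ Fin r) → Prop)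
    (hY : ∀ A A', (mat E A).det ≠ 0 → (mat E A').det ≠ 0 → C₀ ⊆ A → C₀ ⊆ A' →
      r ≤ (A ∩ A').card + 2 → Y A → Y A')
    (C : Finset (Fin r ⊕ Fin r)) (hC₀ : C₀ ⊆ C) (_hC : C.card + 2 < r) (A A' : Finset (Fin r ⊕ Fin r))
    (hA : (mat E A).det ≠ 0) (hA' : (mat E A').det ≠ 0) (hCA : C ⊆ A) (hCA' : C ⊆ A')
    (hYA : Y A) (hYA' : ¬ Y A')
    (hmax : ∀ B, (mat E B).det ≠ 0 → C ⊆ B → Y B → (B ∩ A').card ≤ (A ∩ A').card) :
    ∃ Z : Finset (Fin r ⊕ Fin r), Disjoint C Z ∧
      (∀ B, (mat E B).det ≠ 0 → C ⊆ B → ¬ B ⊆ C ∪ Z) ∧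
      (∀ B, (mat E B).det ≠ 0 → C ⊆ B → ¬ Disjoint Z B) := by
  classical
  obtain ⟨iA, iAc⟩ := indep_of_det hA
  obtain ⟨iA', iAc'⟩ := indep_of_det hA'
  obtain ⟨cA, cAc⟩ := card_of_det hA
  obtain ⟨cA', cAc'⟩ := card_of_det hA'
  -- at least three elements
  have h3 : (A ∩ A').card + 3 ≤ r := by
    by_contra hcon
    exact hYA' (hY A A' hA hA' (hC₀.trans hCA) (hC₀.trans hCA') (by omega) hYA)
  have hd : (A' \ A).Nonempty := by
    rw [← Finset.card_pos]
    have := Finset.card_sdiff_add_card_inter A' A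
    rw [Finset.inter_comm] at this
    omega
  obtain ⟨d, hd⟩ := hd
  obtain ⟨hdA', hdA⟩ := Finset.mem_sdiff.1 hd
  -- exchange in the first matroid
  obtain ⟨a, haA, haA', ha⟩ : ∃ a ∈ A, a ∉ A' ∧
      LinearIndepOn K E ((insert d (A.erase a) : Finset (Fin r ⊕ Fin r)) :
        Set (Fin r ⊕ Fin r)) := by
    have hdm : E d ∈ Submodule.span K (E '' (A : Set (Fin r ⊕ Fin r))) := by
      rw [span_top iA cA]
      trivial
    obtain ⟨c, hc⟩ := Submodule.mem_span_image_finset_iff_exists_fun' (R := K) |>.1 hdm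
    have hex : ∃ a ∈ A, a ∉ A' ∧ c a ≠ 0 := by
      by_contra hcon
      push Not at hcon
      refine iA'.notMem_span (i := d) (by simpa using hdA') ?_
      rw [← hc]
      refine Submodule.sum_mem _ fun x hx => ?_
      by_cases hxA' : x ∈ A'
      · refine Submodule.smul_mem _ _ (Submodule.subset_span ⟨x, ⟨by simpa using hxA', ?_⟩, rfl⟩)
        exact fun h => hdA ((Set.mem_singleton_iff.1 h) ▸ hx)
      · rw [hcon x hx hxA', zero_smul]
        exact Submodule.zero_mem _
    obtain ⟨a, haA, haA', hca⟩ := hex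
    refine ⟨a, haA, haA', indep_of_span ?_ ?_⟩
    · have hda : E d ∈ Submodule.span K (E '' ((insert d (A.erase a) :
          Finset (Fin r ⊕ Fin r)) : Set (Fin r ⊕ Fin r))) :=
        Submodule.subset_span ⟨d, by simp, rfl⟩
      have hya : ∀ y ∈ A.erase a, E y ∈ Submodule.span K (E '' ((insert d (A.erase a) :
          Finset (Fin r ⊕ Fin r)) : Set (Fin r ⊕ Fin r))) := fun y hy =>
        Submodule.subset_span ⟨y, by
          rw [Finset.mem_coe]
          exact Finset.mem_insert_of_mem hy, rfl⟩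
      rw [eq_top_iff, ← span_top iA cA, Submodule.span_le]
      rintro _ ⟨x, hx, rfl⟩
      by_cases hxa : x = a
      · subst hxa
        rw [← Finset.add_sum_erase _ _ haA] at hc
        have h6 : E x = (c x)⁻¹ • (E d - ∑ y ∈ A.erase x, c y • E y) := by
          rw [← hc, add_sub_cancel_right, smul_smul, inv_mul_cancel₀ hca, one_smul]
        change E x ∈ _
        rw [h6]
        exact Submodule.smul_mem _ _ (Submodule.sub_mem _ hda
          (Submodule.sum_mem _ fun y hy => Submodule.smul_mem _ _ (hya y hy)))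
      · exact hya x (Finset.mem_erase.2 ⟨hxa, hx⟩)
    · rw [Finset.card_insert_of_notMem (by simp [hdA]), Finset.card_erase_of_mem haA, cA]
      omega
  -- exchange in the second matroid
  obtain ⟨b, hbA, hbA', hb⟩ : ∃ b ∈ A, b ∉ A' ∧
      LinearIndepOn K E ((insert b (Aᶜ.erase d) : Finset (Fin r ⊕ Fin r)) :
        Set (Fin r ⊕ Fin r)) := by
    by_contra hcon
    push Not at hcon
    have hspan : ∀ x ∈ A'ᶜ, E x ∈ Submodule.span K (E '' ((Aᶜ.erase d :
        Finset (Fin r ⊕ Fin r)) : Set (Fin r ⊕ Fin r))) := by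
      intro x hx
      have hx' : x ∉ A' := by simpa using hx
      by_cases hxA : x ∈ A
      · by_contra hns
        refine hcon x hxA hx' ?_
        rw [Finset.coe_insert]
        exact (iAc.mono (by intro y hy; simp at hy; simp [hy.1])).insert hns
      · refine Submodule.subset_span ⟨x, ?_, rfl⟩
        simp only [coe_erase, coe_compl, Set.mem_sdiff, Set.mem_compl_iff, mem_coe,
          Set.mem_singleton_iff]
        exact ⟨hxA, fun h => hx' (h ▸ hdA')⟩
    have htop := span_top iAc' cAc'
    refine not_span (E := E) (A := Aᶜ.erase d) ?_ ?_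
    · rw [Finset.card_erase_of_mem (by simpa using hdA)]
      have : 0 < r := by omega
      omega
    · rw [eq_top_iff, ← htop, Submodule.span_le]
      rintro _ ⟨x, hx, rfl⟩
      exact hspan x (by simpa using hx)
  -- the second element, different from `a`
  obtain ⟨c, hcA, hcA', hca, hcb⟩ : ∃ c ∈ A, c ∉ A' ∧ c ≠ a ∧ (b ≠ a → c = b) := by
    by_cases hba : b = a
    · have : 1 < (A \ A').card := by
        have := Finset.card_sdiff_add_card_inter A A'
        omega
      obtain ⟨c, hc, hca⟩ := Finset.exists_mem_ne this a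
      obtain ⟨hc1, hc2⟩ := Finset.mem_sdiff.1 hc
      exact ⟨c, hc1, hc2, hca, fun h => absurd hba h⟩
    · exact ⟨b, hbA, hbA', hba, fun _ => rfl⟩
  set G : Finset (Fin r ⊕ Fin r) := insert d ((A.erase a).erase c) with hG
  have hdG : d ∉ (A.erase a).erase c := by simp [hdA]
  have cG : G.card + 1 = r := by
    rw [hG, Finset.card_insert_of_notMem hdG, Finset.card_erase_of_mem (by simp [hca, hcA]),
      Finset.card_erase_of_mem haA, cA]
    omega
  have iG : LinearIndepOn K E (G : Set (Fin r ⊕ Fin r)) := by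
    refine ha.mono ?_
    rw [Finset.coe_subset, hG]
    exact Finset.insert_subset_insert _ (Finset.erase_subset _ _)
  have hbG : b ∉ G := by
    rw [hG, Finset.mem_insert, not_or]
    refine ⟨fun h => hdA (h ▸ hbA), ?_⟩
    by_cases hba : b = a
    · simp [hba]
    · simp [hcb hba]
  have sGc : Submodule.span K (E '' ((Gᶜ : Finset (Fin r ⊕ Fin r)) : Set (Fin r ⊕ Fin r))) = ⊤ := by
    have h4 : (insert b (Aᶜ.erase d)).card = r := by
      rw [Finset.card_insert_of_notMem (by simp [hbA]), Finset.card_erase_of_mem (by simpa using hdA),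
        cAc]
      omega
    have h5 := span_top hb h4
    rw [eq_top_iff, ← h5]
    refine Submodule.span_mono (Set.image_mono ?_)
    rw [Finset.coe_subset]
    intro x hx
    rw [Finset.mem_compl]
    rcases Finset.mem_insert.1 hx with rfl | hx
    · exact hbG
    · intro hxG
      rw [Finset.mem_erase, Finset.mem_compl] at hx
      rcases Finset.mem_insert.1 hxG with h | h
      · exact hx.1 h
      · exact hx.2 (Finset.mem_of_mem_erase (Finset.mem_of_mem_erase h))
  have cGc : Gᶜ.card = r + 1 := by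
    rw [Finset.card_compl, Fintype.card_sum, Fintype.card_fin]
    omega
  -- the relation on the complement
  obtain ⟨l, hl0, x₀, hx₀, hx₀l⟩ : ∃ l : Fin r ⊕ Fin r → K, ∑ x ∈ Gᶜ, l x • E x = 0 ∧
      ∃ x ∈ Gᶜ, l x ≠ 0 := by
    have : ¬ LinearIndepOn K E ((Gᶜ : Finset (Fin r ⊕ Fin r)) : Set (Fin r ⊕ Fin r)) := by
      intro h
      have h4 : Fintype.card ((Gᶜ : Finset (Fin r ⊕ Fin r)) : Set (Fin r ⊕ Fin r)) ≤
          Module.finrank K (Fin r → K) :=
        LinearIndependent.fintype_card_le_finrank (show LinearIndependent K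
          (fun a : ((Gᶜ : Finset (Fin r ⊕ Fin r)) : Set (Fin r ⊕ Fin r)) => E a) from h)
      rw [Module.finrank_fin_fun] at h4
      have h5 := (Fintype.card_coe Gᶜ).symm.le.trans h4
      omega
    rw [linearIndepOn_finset_iff] at this
    push Not at this
    exact this
  -- no extension to a common basis
  have hext : ∀ e ∈ Gᶜ, l e ≠ 0 → E e ∈ Submodule.span K (E '' (G : Set (Fin r ⊕ Fin r))) := by
    intro e he hle
    by_contra hns
    have heG : e ∉ G := by simpa using he
    have h4 : LinearIndepOn K E ((insert e G : Finset (Fin r ⊕ Fin r)) :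
        Set (Fin r ⊕ Fin r)) := by
      rw [Finset.coe_insert]
      exact iG.insert hns
    have h5 : Submodule.span K (E '' ((Gᶜ.erase e : Finset (Fin r ⊕ Fin r)) :
        Set (Fin r ⊕ Fin r))) = ⊤ := by
      rw [eq_top_iff, ← sGc, Submodule.span_le]
      rintro _ ⟨x, hx, rfl⟩
      by_cases hxe : x = e
      · subst hxe
        have h6 : E x = - ((l x)⁻¹ • ∑ y ∈ Gᶜ.erase x, l y • E y) := by
          rw [← Finset.add_sum_erase _ _ he] at hl0
          rw [eq_neg_iff_add_eq_zero]
          have := congrArg (fun z => (l x)⁻¹ • z) hl0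
          simpa [smul_add, smul_smul, inv_mul_cancel₀ hle] using this
        change E x ∈ _
        rw [h6]
        refine Submodule.neg_mem _ (Submodule.smul_mem _ _ (Submodule.sum_mem _ fun y hy => ?_))
        exact Submodule.smul_mem _ _ (Submodule.subset_span ⟨y, by simpa [and_comm] using hy, rfl⟩)
      · exact Submodule.subset_span ⟨x, by simpa [hxe] using hx, rfl⟩
    have h6 : LinearIndepOn K E (((insert e G)ᶜ : Finset (Fin r ⊕ Fin r)) :
        Set (Fin r ⊕ Fin r)) := by
      have e1 : (insert e G)ᶜ = Gᶜ.erase e := by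
        ext x
        simp
      rw [e1]
      refine indep_of_span h5 ?_
      rw [Finset.card_erase_of_mem he, cGc]
      rfl
    have hB := det_of_indep h4 h6
    have hCB : C ⊆ insert e G := by
      intro x hx
      rw [Finset.mem_insert, hG, Finset.mem_insert, Finset.mem_erase, Finset.mem_erase]
      exact Or.inr (Or.inr ⟨fun h => hcA' (h ▸ hCA' hx), fun h => haA' (h ▸ hCA' hx), hCA hx⟩)
    have hYB : Y (insert e G) := by
      refine hY A _ hA hB (hC₀.trans hCA) (hC₀.trans hCB) ?_ hYA
      have h7 : (A.erase a).erase c ⊆ A ∩ insert e G := by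
        intro x hx
        rw [Finset.mem_inter, Finset.mem_insert, hG, Finset.mem_insert]
        exact ⟨Finset.mem_of_mem_erase (Finset.mem_of_mem_erase hx), Or.inr (Or.inr hx)⟩
      have h8 := Finset.card_le_card h7
      rw [Finset.card_erase_of_mem (by simp [hca, hcA]), Finset.card_erase_of_mem haA, cA] at h8
      omega
    have h7 := hmax _ hB hCB hYB
    have h8 : insert d (A ∩ A') ⊆ insert e G ∩ A' := by
      intro x hx
      rw [Finset.mem_inter, Finset.mem_insert, hG, Finset.mem_insert, Finset.mem_erase,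
        Finset.mem_erase]
      rcases Finset.mem_insert.1 hx with rfl | hx
      · exact ⟨Or.inr (Or.inl rfl), hdA'⟩
      · obtain ⟨hxA, hxA'⟩ := Finset.mem_inter.1 hx
        exact ⟨Or.inr (Or.inr ⟨fun h => hcA' (h ▸ hxA'), fun h => haA' (h ▸ hxA'), hxA⟩), hxA'⟩
    have h9 := Finset.card_le_card h8
    rw [Finset.card_insert_of_notMem (by simp [hdA])] at h9
    omega
  have hCG : C ⊆ G := by
    intro x hx
    rw [hG, Finset.mem_insert, Finset.mem_erase, Finset.mem_erase]
    exact Or.inr ⟨fun h => hcA' (h ▸ hCA' hx), fun h => haA' (h ▸ hCA' hx), hCA hx⟩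
  refine ⟨Gᶜ.filter fun x => l x ≠ 0, ?_, ?_, ?_⟩
  · rw [Finset.disjoint_left]
    intro x hx hx'
    exact (Finset.mem_compl.1 (Finset.mem_filter.1 hx').1) (hCG hx)
  · intro B hB hCB hBZ
    obtain ⟨iB, -⟩ := indep_of_det hB
    have h4 := span_top iB (card_of_det hB).1
    refine not_span (E := E) (A := G) (by omega) ?_
    rw [eq_top_iff, ← h4, Submodule.span_le]
    rintro _ ⟨x, hx, rfl⟩
    rcases Finset.mem_union.1 (hBZ hx) with h | h
    · exact Submodule.subset_span ⟨x, hCG h, rfl⟩
    · obtain ⟨h5, h6⟩ := Finset.mem_filter.1 h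
      exact hext x h5 h6
  · intro B hB hCB hZB
    obtain ⟨-, iB⟩ := indep_of_det hB
    have h4 : LinearIndepOn K E ((Gᶜ.filter fun x => l x ≠ 0 : Finset (Fin r ⊕ Fin r)) :
        Set (Fin r ⊕ Fin r)) := by
      refine iB.mono ?_
      rw [Finset.coe_subset]
      intro x hx
      rw [Finset.mem_compl]
      exact fun h => Finset.disjoint_left.1 hZB hx h
    rw [linearIndepOn_finset_iff] at h4
    refine hx₀l (h4 l ?_ x₀ (Finset.mem_filter.2 ⟨hx₀, hx₀l⟩))
    rw [← hl0, Finset.sum_filter]
    refine Finset.sum_congr rfl fun x _ => ?_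
    split_ifs with h
    · rfl
    · rw [not_not] at h
      rw [h, zero_smul]

/-- A step of at most two elements in which the right half does not lose an element. -/
def Up (E : Fin r ⊕ Fin r → Fin r → K) (A B : Finset (Fin r ⊕ Fin r)) : Prop :=
  (mat E A).det ≠ 0 ∧ (mat E B).det ≠ 0 ∧ r ≤ (A ∩ B).card + 2 ∧ A.toRight ⊆ B.toRight

/-- One step upwards. -/
theorem climb_one (E : Fin r ⊕ Fin r → Fin r → K) (A : Finset (Fin r ⊕ Fin r))
    (hA : (mat E A).det ≠ 0) (hk : 2 * A.toRight.card < r) :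
    ∃ A', Relation.ReflTransGen (Up E) A A' ∧ A.toRight ⊂ A'.toRight ∧ (mat E A').det ≠ 0 := by
  classical
  by_contra hcon
  push Not at hcon
  set C₀ : Finset (Fin r ⊕ Fin r) := A.toRight.map ⟨Sum.inr, Sum.inr_injective⟩ with hC₀
  have hsub : ∀ B : Finset (Fin r ⊕ Fin r), C₀ ⊆ B ↔ A.toRight ⊆ B.toRight := by
    intro B
    constructor
    · intro h x hx
      rw [Finset.mem_toRight]
      exact h (Finset.mem_map.2 ⟨x, hx, rfl⟩)
    · intro h x hx
      obtain ⟨y, hy, rfl⟩ := Finset.mem_map.1 hx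
      exact Finset.mem_toRight.1 (h hy)
  let X : Finset (Fin r ⊕ Fin r) → Prop := fun B =>
    Relation.ReflTransGen (fun P Q => Up E P Q ∧ P.toRight = Q.toRight) A B
  have hX : ∀ B, X B → A.toRight = B.toRight ∧ Relation.ReflTransGen (Up E) A B := by
    intro B hB
    induction hB with
    | refl => exact ⟨rfl, Relation.ReflTransGen.refl⟩
    | tail _ h ih => exact ⟨ih.1.trans h.2, ih.2.tail h.1⟩
  have hY : ∀ P Q, (mat E P).det ≠ 0 → (mat E Q).det ≠ 0 → C₀ ⊆ P → C₀ ⊆ Q →
      r ≤ (P ∩ Q).card + 2 → X P → X Q := by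
    intro P Q hP hQ hCP hCQ hPQ hXP
    obtain ⟨h1, h2⟩ := hX P hXP
    have h3 : P.toRight ⊆ Q.toRight := h1 ▸ (hsub Q).1 hCQ
    have h4 : Up E P Q := ⟨hP, hQ, hPQ, h3⟩
    by_cases h5 : P.toRight = Q.toRight
    · exact hXP.tail ⟨h4, h5⟩
    · exact absurd hQ (by
        have := hcon Q (h2.tail h4) (by
          rw [h1]
          exact Finset.ssubset_iff_subset_ne.2 ⟨h3, h5⟩)
        simpa using this)
  have hC₀A : C₀ ⊆ A := (hsub A).2 subset_rfl
  have cA := (card_of_det hA).1
  have hsum := sum_closed_over (fun A => (mat E A).det) (fun A hA => (card_of_det hA).1)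
    (sum_superset_zero E) C₀ X hY (step_two_over E C₀ X hY)
  have h1 := sum_disjoint (fun B => if X B then (mat E B).det else 0) (A \ C₀)
  have h2 : ∀ D : Finset (Fin r ⊕ Fin r), ∑ B with D ⊆ B, (if X B then (mat E B).det else 0) =
      ∑ B with C₀ ∪ D ⊆ B, (if X B then (mat E B).det else 0) := by
    intro D
    rw [Finset.sum_filter, Finset.sum_filter]
    refine Finset.sum_congr rfl fun B _ => ?_
    by_cases hXB : X B
    · have h3 : C₀ ⊆ B := (hsub B).2 (hX B hXB).1.le
      simp [Finset.union_subset_iff, h3]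
    · simp [hXB]
  have h3 : ∑ D ∈ (A \ C₀).powerset, (-1 : K) ^ D.card *
      ∑ B with D ⊆ B, (if X B then (mat E B).det else 0) =
      (-1) ^ (A \ C₀).card * ∑ B with A \ C₀ ⊆ B, (if X B then (mat E B).det else 0) := by
    refine Finset.sum_eq_single_of_mem _ (Finset.mem_powerset_self _) fun D hD hDS => ?_
    have hDS' := Finset.mem_powerset.1 hD
    have hlt : D.card < (A \ C₀).card := Finset.card_lt_card (lt_of_le_of_ne hDS' hDS)
    have hc : (C₀ ∪ D).card ≤ C₀.card + D.card := Finset.card_union_le _ _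
    have hc2 := Finset.card_sdiff_add_card_eq_card hC₀A
    rw [h2 D, hsum (r - (C₀ ∪ D).card) (C₀ ∪ D) Finset.subset_union_left (by omega) (by omega),
      mul_zero]
  have h4 : ∑ B with A \ C₀ ⊆ B, (if X B then (mat E B).det else 0) = (mat E A).det := by
    rw [h2, Finset.union_sdiff_of_subset hC₀A, Finset.sum_eq_single_of_mem A (by simp)]
    · rw [if_pos (show X A from Relation.ReflTransGen.refl)]
    · intro B hB hBS
      split_ifs with h
      · by_contra h0
        exact hBS (Finset.eq_of_subset_of_card_le (by simpa using hB)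
          (by rw [(card_of_det h0).1, cA])).symm
      · rfl
  rw [h3, h4] at h1
  have h5 : ∑ B with Disjoint (A \ C₀) B, (if X B then (mat E B).det else 0) ≠ 0 := by
    rw [h1]
    exact mul_ne_zero (pow_ne_zero _ (by simp)) hA
  obtain ⟨B, hB, hB0⟩ := Finset.exists_ne_zero_of_sum_ne_zero h5
  have hXB : X B := by
    by_contra h
    simp [h] at hB0
  have hFB : (mat E B).det ≠ 0 := by simpa [hXB] using hB0
  have hdis : Disjoint (A \ C₀) B := by simpa using hB
  have h6 : Disjoint A.toLeft B.toLeft := by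
    rw [Finset.disjoint_left]
    intro x hx hx'
    have hxs : (Sum.inl x : Fin r ⊕ Fin r) ∈ A \ C₀ := by
      rw [Finset.mem_sdiff]
      refine ⟨Finset.mem_toLeft.1 hx, ?_⟩
      simp [hC₀]
    exact (Finset.disjoint_left.1 hdis) hxs (Finset.mem_toLeft.1 hx')
  have h7 := Finset.card_le_univ (A.toLeft ∪ B.toLeft)
  rw [Finset.card_union_of_disjoint h6, Fintype.card_fin] at h7
  have h8 := A.card_toLeft_add_card_toRight
  have h9 := B.card_toLeft_add_card_toRight
  rw [(card_of_det hFB).1, ← (hX B hXB).1] at h9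
  omega

/-- The climb to the half. -/
theorem climb (E : Fin r ⊕ Fin r → Fin r → K) (A : Finset (Fin r ⊕ Fin r))
    (hA : (mat E A).det ≠ 0) :
    ∃ A', Relation.ReflTransGen (Up E) A A' ∧ r ≤ 2 * A'.toRight.card ∧ (mat E A').det ≠ 0 := by
  have key : ∀ m, ∀ A : Finset (Fin r ⊕ Fin r), (mat E A).det ≠ 0 → r ≤ 2 * (A.toRight.card + m) →
      ∃ A', Relation.ReflTransGen (Up E) A A' ∧ r ≤ 2 * A'.toRight.card ∧
        (mat E A').det ≠ 0 := by
    intro m
    induction m with
    | zero => exact fun A hA h => ⟨A, Relation.ReflTransGen.refl, h, hA⟩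
    | succ m ih =>
      intro A hA h
      rcases Nat.lt_or_ge (2 * A.toRight.card) r with h1 | h1
      · obtain ⟨B, hB1, hB2, hB3⟩ := climb_one E A hA h1
        have h2 := Finset.card_lt_card hB2
        obtain ⟨D, hD1, hD2, hD3⟩ := ih B hB3 (by omega)
        exact ⟨D, hB1.trans hD1, hD2, hD3⟩
      · exact ⟨A, Relation.ReflTransGen.refl, h1, hA⟩
  exact key r A hA (by omega)

theorem up_compl {E : Fin r ⊕ Fin r → Fin r → K} {A B : Finset (Fin r ⊕ Fin r)}
    (h : Up E A B) : Up E Bᶜ Aᶜ := by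
  classical
  obtain ⟨h1, h2, h3, h4⟩ := h
  refine ⟨?_, ?_, ?_, ?_⟩
  · rw [det_compl]
    exact mul_ne_zero (pow_ne_zero _ (by simp)) h2
  · rw [det_compl]
    exact mul_ne_zero (pow_ne_zero _ (by simp)) h1
  · rw [← Finset.compl_union, Finset.card_compl, Fintype.card_sum, Fintype.card_fin]
    have h5 := Finset.card_union_add_card_inter B A
    have h6 := Finset.card_le_univ (B ∪ A)
    rw [Fintype.card_sum, Fintype.card_fin] at h6
    rw [(card_of_det h1).1, (card_of_det h2).1, Finset.inter_comm] at h5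
    omega
  · intro x hx
    rw [Finset.mem_toRight, Finset.mem_compl] at hx ⊢
    exact fun h => hx (Finset.mem_toRight.1 (h4 (Finset.mem_toRight.2 h)))

/-- The mirror image of the climb. -/
theorem climb_from (E : Fin r ⊕ Fin r → Fin r → K) (B : Finset (Fin r ⊕ Fin r))
    (hB : (mat E B).det ≠ 0) :
    ∃ A', Relation.ReflTransGen (Up E) A' B ∧ 2 * A'.toRight.card ≤ r ∧ (mat E A').det ≠ 0 := by
  classical
  have hBc : (mat E Bᶜ).det ≠ 0 := by
    rw [det_compl]
    exact mul_ne_zero (pow_ne_zero _ (by simp)) hB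
  obtain ⟨D, h1, h2, h3⟩ := climb E Bᶜ hBc
  refine ⟨Dᶜ, ?_, ?_, ?_⟩
  · have key : ∀ P Q, Relation.ReflTransGen (Up E) P Q → Relation.ReflTransGen (Up E) Qᶜ Pᶜ := by
      intro P Q h
      induction h with
      | refl => exact Relation.ReflTransGen.refl
      | tail _ h ih => exact Relation.ReflTransGen.head (up_compl h) ih
    have := key _ _ h1
    rwa [compl_compl] at this
  · have e : (Dᶜ).toRight = (D.toRight)ᶜ := by
      ext x
      simp
    rw [e, Finset.card_compl, Fintype.card_fin]
    omega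
  · rw [det_compl]
    exact mul_ne_zero (pow_ne_zero _ (by simp)) h3

end Pool.Agent.H68Rg
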