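import Pool.Agent.H68Rg.Up

/-!
# Monotone climb with steps of at most two elements: matroids
-/

set_option autoImplicit false

namespace Pool.Agent.H68Rg

open Finset
open scoped Matroid

variable {K : Type*} [Field K]

/-- Two bases of a represented matroid, as vectors. -/
theorem exists_model {α V : Type*} [AddCommGroup V] [Module K V]
    (M : Matroid α) (φ : α → V) (hφ : ∀ X ⊆ M.E, M.Indep X ↔ LinearIndepOn K φ X)
    {B B' : Set α} (hB : M.IsBase B) (hB' : M.IsBase B') (hfin : B.Finite) :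
    ∃ (E : Fin (B \ B').ncard ⊕ Fin (B \ B').ncard → Fin (B \ B').ncard → K)
      (P : Finset (Fin (B \ B').ncard ⊕ Fin (B \ B').ncard) → Set α × Set α),
      (mat E (univ.map ⟨Sum.inl, Sum.inl_injective⟩)).det ≠ 0 ∧
      P (univ.map ⟨Sum.inl, Sum.inl_injective⟩) = (B, B') ∧
      P (univ.map ⟨Sum.inl, Sum.inl_injective⟩)ᶜ = (B', B) ∧
      (∀ A A', (mat E A).det ≠ 0 → (mat E A').det ≠ 0 → (B \ B').ncard ≤ (A ∩ A').card + 2 →
        TwoExchange M (P A) (P A')) ∧
      (∀ A, ((P A).1 ∩ (B' \ B)).ncard = A.toRight.card) ∧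
      (∀ A A', A.toRight ⊆ A'.toRight → (P A).1 ∩ B' ⊆ (P A').1) := by
  classical
  set n := (B \ B').ncard with hn
  set C := B ∩ B' with hC
  have hfin' : B'.Finite := by
    rw [← Set.encard_lt_top_iff, hB'.encard_eq_encard_of_isBase hB, Set.encard_lt_top_iff]
    exact hfin
  have hn' : (B' \ B).ncard = n := by
    have h1 := Set.ncard_inter_add_ncard_sdiff_eq_ncard B B' hfin
    have h2 := Set.ncard_inter_add_ncard_sdiff_eq_ncard B' B hfin'
    rw [Set.inter_comm] at h2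
    have h3 := hB'.ncard_eq_ncard_of_isBase hB
    omega
  obtain ⟨b, hb, hbr⟩ : ∃ b : Fin n → α, Function.Injective b ∧ Set.range b = B \ B' := by
    have : Finite (B \ B' : Set α) := hfin.sdiff
    let e : Fin n ≃ (B \ B' : Set α) :=
      (Finite.equivFinOfCardEq (Nat.card_coe_set_eq (B \ B'))).symm
    exact ⟨fun i => (e i : α), Subtype.val_injective.comp e.injective, by
      rw [show (fun i => (e i : α)) = Subtype.val ∘ e from rfl, Set.range_comp, e.range_eq_univ,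
        Set.image_univ, Subtype.range_coe]⟩
  obtain ⟨b', hb', hbr'⟩ : ∃ b' : Fin n → α, Function.Injective b' ∧ Set.range b' = B' \ B := by
    have : Finite (B' \ B : Set α) := hfin'.sdiff
    let e : Fin n ≃ (B' \ B : Set α) :=
      (Finite.equivFinOfCardEq ((Nat.card_coe_set_eq (B' \ B)).trans hn')).symm
    exact ⟨fun i => (e i : α), Subtype.val_injective.comp e.injective, by
      rw [show (fun i => (e i : α)) = Subtype.val ∘ e from rfl, Set.range_comp, e.range_eq_univ,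
        Set.image_univ, Subtype.range_coe]⟩
  -- contraction of the common part
  have hCi : M.Indep C := hB.indep.subset Set.inter_subset_left
  have hCE : C ⊆ M.E := hCi.subset_ground
  have hφ' : ∀ X ⊆ (M ／ C).E, (M ／ C).Indep X ↔
      LinearIndepOn K ((Submodule.span K (φ '' C)).mkQ ∘ φ) X := by
    intro X hX
    rw [Matroid.contract_ground] at hX
    have hd : Disjoint C X := (Set.disjoint_sdiff_right).mono_right hX
    rw [hCi.contract_indep_iff, LinearIndepOn.quotient_iff_union ((hφ C hCE).1 hCi) hd,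
      Set.union_comm X C, hφ _ (Set.union_subset hCE (hX.trans Set.sdiff_subset))]
    exact and_iff_right hd.symm
  have hbase1 : (M ／ C).IsBase (Set.range b) := by
    rw [hbr, hCi.contract_isBase_iff]
    refine ⟨?_, ?_⟩
    · rwa [hC, Set.union_comm, Set.inter_union_sdiff]
    · rw [hC]
      exact Set.disjoint_left.2 fun x hx hx' => hx.2 hx'.2
  have hbase2 : (M ／ C).IsBase (Set.range b') := by
    rw [hbr', hCi.contract_isBase_iff]
    refine ⟨?_, ?_⟩
    · rwa [hC, Set.union_comm, Set.inter_comm, Set.inter_union_sdiff]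
    · rw [hC]
      exact Set.disjoint_left.2 fun x hx hx' => hx.2 hx'.1
  obtain ⟨E, hE, h1, h2⟩ := H11SW.exists_vectors (M ／ C) _ hφ' b b' hb hb' hbase1 hbase2
  set g : Fin n ⊕ Fin n → α := Sum.elim b b' with hg
  have hginj : Function.Injective g := by
    refine Function.Injective.sumElim hb hb' ?_
    intro i j hij
    have h3 : b i ∈ B \ B' := hbr ▸ ⟨i, rfl⟩
    have h4 : b' j ∈ B' \ B := hbr' ▸ ⟨j, rfl⟩
    exact h3.2 (hij ▸ h4.1)
  have hgC : ∀ a, g a ∉ C := by
    rintro (i | i) h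
    · have h3 : b i ∈ B \ B' := hbr ▸ ⟨i, rfl⟩
      exact h3.2 h.2
    · have h3 : b' i ∈ B' \ B := hbr' ▸ ⟨i, rfl⟩
      exact h3.2 h.1
  have hbase : ∀ A, (mat E A).det ≠ 0 → M.IsBase (g '' (A : Set (Fin n ⊕ Fin n)) ∪ C) ∧
      M.IsBase (g '' ((Aᶜ : Finset (Fin n ⊕ Fin n)) : Set (Fin n ⊕ Fin n)) ∪ C) := by
    intro A hA
    obtain ⟨h3, h4⟩ := indep_of_det hA
    obtain ⟨h5, h6⟩ := card_of_det hA
    exact ⟨(hCi.contract_isBase_iff.1 (hE A h5 h3).1).1,
      (hCi.contract_isBase_iff.1 (hE Aᶜ h6 h4).1).1⟩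
  -- the pair of bases of a set
  let P : Finset (Fin n ⊕ Fin n) → Set α × Set α := fun A =>
    (g '' (A : Set (Fin n ⊕ Fin n)) ∪ C,
      g '' ((Aᶜ : Finset (Fin n ⊕ Fin n)) : Set (Fin n ⊕ Fin n)) ∪ C)
  have hdisj : ∀ (A : Finset (Fin n ⊕ Fin n)), Disjoint C (g '' (A : Set (Fin n ⊕ Fin n))) := by
    intro A
    rw [Set.disjoint_left]
    rintro x hx ⟨a, _, rfl⟩
    exact hgC a hx
  have key : ∀ A A' : Finset (Fin n ⊕ Fin n),
      g '' (A' : Set (Fin n ⊕ Fin n)) ∪ C =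
        ((g '' (A : Set (Fin n ⊕ Fin n)) ∪ C) \ (g '' ((A \ A' : Finset (Fin n ⊕ Fin n)) :
          Set (Fin n ⊕ Fin n)))) ∪ g '' ((A' \ A : Finset (Fin n ⊕ Fin n)) :
          Set (Fin n ⊕ Fin n)) := by
    intro A A'
    ext x
    constructor
    · rintro (⟨a, ha, rfl⟩ | hx)
      · by_cases haA : a ∈ A
        · refine Or.inl ⟨Or.inl ⟨a, haA, rfl⟩, ?_⟩
          rintro ⟨a', ha', he⟩
          rw [hginj he] at ha'
          exact (Finset.mem_sdiff.1 ha').2 ha
        · exact Or.inr ⟨a, Finset.mem_coe.2 (Finset.mem_sdiff.2 ⟨ha, haA⟩), rfl⟩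
      · exact Or.inl ⟨Or.inr hx, fun h => Set.disjoint_left.1 (hdisj _) hx h⟩
    · rintro (⟨⟨a, ha, rfl⟩ | hx, h⟩ | ⟨a, ha, rfl⟩)
      · refine Or.inl ⟨a, ?_, rfl⟩
        by_contra haA'
        exact h ⟨a, Finset.mem_coe.2 (Finset.mem_sdiff.2 ⟨ha, haA'⟩), rfl⟩
      · exact Or.inr hx
      · exact Or.inl ⟨a, (Finset.mem_sdiff.1 ha).1, rfl⟩
  have hstep : ∀ A A', (mat E A).det ≠ 0 → (mat E A').det ≠ 0 → n ≤ (A ∩ A').card + 2 →
      TwoExchange M (P A) (P A') := by
    intro A A' hF hF' hc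
    have cA := (card_of_det hF).1
    have cA' := (card_of_det hF').1
    have c1 := Finset.card_sdiff_add_card_inter A A'
    have c2 := Finset.card_sdiff_add_card_inter A' A
    rw [Finset.inter_comm] at c2
    refine ⟨⟨g '' ((A \ A' : Finset (Fin n ⊕ Fin n)) : Set (Fin n ⊕ Fin n)), ?_,
      g '' ((A' \ A : Finset (Fin n ⊕ Fin n)) : Set (Fin n ⊕ Fin n)), ?_, ?_, ?_, ?_, ?_⟩,
      (hbase _ hF').1, (hbase _ hF').2⟩
    · rintro _ ⟨a, ha, rfl⟩
      exact Or.inl ⟨a, (Finset.mem_sdiff.1 ha).1, rfl⟩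
    · rintro _ ⟨a, ha, rfl⟩
      exact Or.inl ⟨a, Finset.mem_coe.2 (Finset.mem_compl.2 (Finset.mem_sdiff.1 ha).2), rfl⟩
    · rw [hginj.encard_image, hginj.encard_image, Set.encard_coe_eq_coe_finsetCard,
        Set.encard_coe_eq_coe_finsetCard]
      congr 1
      omega
    · rw [hginj.encard_image, Set.encard_coe_eq_coe_finsetCard]
      have : (A \ A').card ≤ 2 := by omega
      exact_mod_cast this
    · exact key A A'
    · have e1 : A' \ A = Aᶜ \ A'ᶜ := by
        ext x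
        simp [and_comm]
      have e2 : A \ A' = A'ᶜ \ Aᶜ := by
        ext x
        simp [and_comm]
      rw [e1, e2]
      exact key Aᶜ A'ᶜ
  have hlev : ∀ A, (P A).1 ∩ (B' \ B) = b' '' (A.toRight : Set (Fin n)) := by
    intro A
    ext x
    constructor
    · rintro ⟨h3 | h3, h4⟩
      · obtain ⟨a, ha, rfl⟩ := h3
        rcases a with i | i
        · exact absurd (show b i ∈ B from (hbr ▸ ⟨i, rfl⟩ : b i ∈ B \ B').1) h4.2
        · exact ⟨i, by simpa using ha, rfl⟩
      · exact absurd h3.1 h4.2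
    · rintro ⟨i, hi, rfl⟩
      refine ⟨Or.inl ⟨Sum.inr i, by simpa using hi, rfl⟩, hbr' ▸ ⟨i, rfl⟩⟩
  have e0 : ((univ.map ⟨Sum.inl, Sum.inl_injective⟩ : Finset (Fin n ⊕ Fin n))ᶜ) =
      univ.map ⟨Sum.inr, Sum.inr_injective⟩ := by
    ext x
    rcases x with i | i <;> simp
  have e1 : P (univ.map ⟨Sum.inl, Sum.inl_injective⟩) = (B, B') := by
    refine Prod.ext ?_ ?_
    · change g '' _ ∪ C = B
      have : g '' ((univ.map ⟨Sum.inl, Sum.inl_injective⟩ : Finset (Fin n ⊕ Fin n)) :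
          Set (Fin n ⊕ Fin n)) = B \ B' := by
        rw [← hbr]
        ext x
        simp [hg]
      rw [this, hC, Set.union_comm, Set.inter_union_sdiff]
    · change g '' _ ∪ C = B'
      have : g '' (((univ.map ⟨Sum.inl, Sum.inl_injective⟩)ᶜ : Finset (Fin n ⊕ Fin n)) :
          Set (Fin n ⊕ Fin n)) = B' \ B := by
        rw [← hbr']
        ext x
        simp [hg]
      rw [this, hC, Set.union_comm, Set.inter_comm, Set.inter_union_sdiff]
  have e2 : P (univ.map ⟨Sum.inr, Sum.inr_injective⟩) = (B', B) := by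
    refine Prod.ext ?_ ?_
    · change g '' _ ∪ C = B'
      have : g '' ((univ.map ⟨Sum.inr, Sum.inr_injective⟩ : Finset (Fin n ⊕ Fin n)) :
          Set (Fin n ⊕ Fin n)) = B' \ B := by
        rw [← hbr']
        ext x
        simp [hg]
      rw [this, hC, Set.union_comm, Set.inter_comm, Set.inter_union_sdiff]
    · change g '' _ ∪ C = B
      have : g '' (((univ.map ⟨Sum.inr, Sum.inr_injective⟩)ᶜ : Finset (Fin n ⊕ Fin n)) :
          Set (Fin n ⊕ Fin n)) = B \ B' := by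
        rw [← hbr]
        ext x
        simp [hg]
      rw [this, hC, Set.union_comm, Set.inter_union_sdiff]
  refine ⟨E, P, det_first h1 h2, e1, ?_, hstep, ?_, ?_⟩
  · rw [e0]
    exact e2
  · intro A
    rw [hlev, hb'.injOn.ncard_image, Set.ncard_coe_finset]
  · intro A A' h x hx
    by_cases hxB : x ∈ B
    · exact Or.inr ⟨hxB, hx.2⟩
    · have h3 : x ∈ (P A).1 ∩ (B' \ B) := ⟨hx.1, hx.2, hxB⟩
      rw [hlev] at h3
      have h4 : x ∈ (P A').1 ∩ (B' \ B) := by
        rw [hlev]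
        exact Set.image_mono (Finset.coe_subset.2 h) h3
      exact h4.1

/-- **The climb to the half.** -/
theorem climb_matroid {α V : Type*} [AddCommGroup V] [Module K V]
    (M : Matroid α) (φ : α → V) (hφ : ∀ X ⊆ M.E, M.Indep X ↔ LinearIndepOn K φ X)
    {B B' : Set α} (hB : M.IsBase B) (hB' : M.IsBase B') (hfin : B.Finite) :
    ∃ P Q : Set α × Set α,
      Relation.ReflTransGen (fun P Q => TwoExchange M P Q ∧ P.1 ∩ B' ⊆ Q.1) (B, B') P ∧
      (B \ B').ncard ≤ 2 * (P.1 ∩ (B' \ B)).ncard ∧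
      Relation.ReflTransGen (TwoExchange M) P Q ∧
      2 * (Q.1 ∩ (B' \ B)).ncard ≤ (B \ B').ncard ∧
      Relation.ReflTransGen (fun P Q => TwoExchange M P Q ∧ P.1 ∩ B' ⊆ Q.1) Q (B', B) := by
  classical
  obtain ⟨E, P, h0, h1, h2, h3, h4, h5⟩ := exists_model (K := K) M φ hφ hB hB' hfin
  have h0c : (mat E (univ.map ⟨Sum.inl, Sum.inl_injective⟩)ᶜ).det ≠ 0 := by
    rw [det_compl]
    exact mul_ne_zero (pow_ne_zero _ (by simp)) h0
  obtain ⟨A, ha1, ha2, ha3⟩ := climb E _ h0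
  obtain ⟨D, hd1, hd2, hd3⟩ := climb_from E _ h0c
  have hup : ∀ X Y, Relation.ReflTransGen (Up E) X Y →
      Relation.ReflTransGen (fun P Q => TwoExchange M P Q ∧ P.1 ∩ B' ⊆ Q.1) (P X) (P Y) :=
    fun X Y h => h.lift P fun a b hab => ⟨h3 a b hab.1 hab.2.1 hab.2.2.1, h5 a b hab.2.2.2⟩
  have hrev : ∀ X Y, Relation.ReflTransGen (Up E) X Y →
      Relation.ReflTransGen (TwoExchange M) (P Y) (P X) := by
    intro X Y h
    induction h with
    | refl => exact Relation.ReflTransGen.refl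
    | tail _ hab ih =>
      refine Relation.ReflTransGen.head (h3 _ _ hab.2.1 hab.1 ?_) ih
      rw [Finset.inter_comm]
      exact hab.2.2.1
  have hmid : Relation.ReflTransGen (TwoExchange M)
      (P (univ.map ⟨Sum.inl, Sum.inl_injective⟩)) (P (univ.map ⟨Sum.inl, Sum.inl_injective⟩)ᶜ) :=
    (path_two E _ h0).lift P fun a b hab => h3 a b hab.1 hab.2.1 hab.2.2
  refine ⟨P A, P D, h1 ▸ hup _ _ ha1, ?_, ?_, ?_, h2 ▸ hup _ _ hd1⟩
  · rw [h4]
    exact ha2
  · exact ((hrev _ _ ha1).trans hmid).trans (hrev _ _ hd1)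
  · rw [h4]
    exact hd2

end Pool.Agent.H68Rg
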